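import Pool.Agent.Lib.MP_537232_an.Coord

set_option autoImplicit false

/-!
# Operators on `V*`; the spaces `U_*`
-/

open scoped ENNReal Topology
open Filter

namespace Pool.Agent.Lib.MP_537232_an

section Y

/-- unit vectors of `V*` -/
noncomputable def eY (v : ℕ → ℕ) (ν : Ix v) : YSp v :=
  lp.single 1 ν.1 (PiLp.single 1 ν.2 (1 : ℝ))

variable {v : ℕ → ℕ} {X : Type} [NormedAddCommGroup X] [NormedSpace ℝ X]

lemma Y_lift [CompleteSpace X] (x : Ix v → X) {C : ℝ} (hC : 0 ≤ C) (hx : ∀ ν, ‖x ν‖ ≤ C) :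
    ∃ S : YSp v →L[ℝ] X, ‖S‖ ≤ C ∧ ∀ ν, S (eY v ν) = x ν := by
  have hb : ∀ n (y : PiLp 1 (fun _ : Fin (v n) => ℝ)), ‖∑ j, y j • x ⟨n, j⟩‖ ≤ C * ‖y‖ := by
    intro n y
    rw [PiLp.norm_eq_of_L1, Finset.mul_sum]
    refine (norm_sum_le _ _).trans (Finset.sum_le_sum fun j _ => ?_)
    rw [norm_smul, mul_comm]
    gcongr
    exact hx _
  obtain ⟨S, hS, hSa⟩ := exists_lift (E := fun n => PiLp 1 (fun _ : Fin (v n) => ℝ))
    (fun n => LinearMap.mkContinuous
      { toFun := fun y => ∑ j, y j • x ⟨n, j⟩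
        map_add' := fun a b => by
          simp only [PiLp.add_apply, add_smul, Finset.sum_add_distrib]
        map_smul' := fun c a => by
          simp only [PiLp.smul_apply, smul_eq_mul, mul_smul, Finset.smul_sum,
            RingHom.id_apply] } C (hb n)) hC (fun n => LinearMap.mkContinuous_norm_le _ hC _)
  refine ⟨S, hS, fun ν => ?_⟩
  unfold eY
  rw [hSa]
  change ∑ j, (PiLp.single 1 ν.2 (1 : ℝ) : PiLp 1 (fun _ : Fin (v ν.1) => ℝ)) j • x ⟨ν.1, j⟩ = x ν
  rw [Finset.sum_eq_single ν.2]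
  · simp
  · intro j _ hj
    simp [hj]
  · intro h
    exact absurd (Finset.mem_univ _) h

lemma Y_norm_le (S : YSp v →L[ℝ] X) {C : ℝ} (hC : 0 ≤ C) (h : ∀ ν, ‖S (eY v ν)‖ ≤ C) :
    ‖S‖ ≤ C := by
  refine norm_le_of_single S hC fun n y => ?_
  have h1 : (lp.single 1 n y : YSp v) = ∑ j, y j • eY v ⟨n, j⟩ := by
    refine lp.ext (funext fun m => ?_)
    rw [lp.coeFn_sum, Finset.sum_apply]
    by_cases hm : m = n
    · subst hm
      rw [lp.single_apply_self]
      ext i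
      have h2 : ∀ j, ((y j • eY v ⟨m, j⟩ : YSp v) : ∀ n, PiLp 1 (fun _ : Fin (v n) => ℝ)) m =
          y j • PiLp.single 1 j (1 : ℝ) := by
        intro j
        rw [lp.coeFn_smul, Pi.smul_apply]
        unfold eY
        rw [lp.single_apply_self]
      simp only [h2]
      rw [WithLp.ofLp_sum, Finset.sum_apply, Finset.sum_eq_single i]
      · simp
      · intro j _ hj
        simp [Ne.symm hj]
      · intro h
        exact absurd (Finset.mem_univ _) h
    · rw [lp.single_apply_ne _ _ _ hm]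
      symm
      refine Finset.sum_eq_zero fun j _ => ?_
      rw [lp.coeFn_smul, Pi.smul_apply]
      unfold eY
      rw [lp.single_apply_ne _ _ _ hm, smul_zero]
  rw [h1, map_sum, PiLp.norm_eq_of_L1, Finset.mul_sum]
  refine (norm_sum_le _ _).trans (Finset.sum_le_sum fun j _ => ?_)
  rw [map_smul, norm_smul, mul_comm]
  gcongr
  exact h _

lemma Y_ext {S S' : YSp v →L[ℝ] X} (h : ∀ ν, S (eY v ν) = S' (eY v ν)) : S = S' := by
  have h1 : ‖S - S'‖ ≤ 0 := Y_norm_le _ le_rfl fun ν => by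
    rw [sub_apply, h, sub_self, norm_zero]
  exact sub_eq_zero.1 (norm_le_zero_iff.1 h1)

lemma norm_eY (ν : Ix v) : ‖eY v ν‖ = 1 := by
  unfold eY
  rw [lp.norm_single (by norm_num), PiLp.norm_eq_of_L1, Finset.sum_eq_single ν.2]
  · simp
  · intro j _ hj
    simp [hj]
  · intro h
    exact absurd (Finset.mem_univ _) h

open Classical in
/-- maps of the unit vectors -/
lemma Y_shuffle (σ : Ix v → Option (Ix v)) : ∃ S : YSp v →L[ℝ] YSp v, ‖S‖ ≤ 1 ∧
    ∀ ν, S (eY v ν) = (σ ν).elim 0 (eY v) := by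
  refine Y_lift (X := YSp v) (fun ν => (σ ν).elim 0 (eY v)) zero_le_one fun ν => ?_
  cases σ ν with
  | none => simp
  | some μ => exact (norm_eY μ).le

end Y

end Pool.Agent.Lib.MP_537232_an
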