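import Pool.Agent.Lib.MP_537232_an.ColDefs

set_option autoImplicit false

/-!
# The spaces `U_*` for `p = 1` and `p = 2`
-/

open scoped ENNReal Topology
open Filter

namespace Pool.Agent.Lib.MP_537232_an

/-- Common features of the spaces `U_*` for `p = 1` and `p = 2`. -/
structure ColSpace (u : ℕ → ℕ) (X : Type) [NormedAddCommGroup X] [NormedSpace ℝ X]
    (Λ : Type) (H : Λ → Type) [∀ l, NormedAddCommGroup (H l)]
    [∀ l, InnerProductSpace ℝ (H l)] where
  co : X →ₗ[ℝ] (∀ n, E u n)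
  co_le : ∀ x n, ‖co x n‖ ≤ ‖x‖
  ι : ∀ n, E u n →L[ℝ] X
  ι_le : ∀ n, ‖ι n‖ ≤ 1
  co_ι : ∀ n y m, co (ι n y) m = Pi.single n y m
  ext : ∀ x x', co x = co x' → x = x'
  shift : ∀ (b : ℕ → ℕ) (R : ∀ k, E u (b k) →L[ℝ] E u k) (C : ℝ), 0 ≤ C → (∀ k, ‖R k‖ ≤ C) →
    (∀ k k', b k = b k' → R k ≠ 0 → R k' ≠ 0 → k = k') →
    ∃ S : X →L[ℝ] X, ‖S‖ ≤ C ∧ ∀ x k, co (S x) k = R k (co x (b k))
  pr : ∀ l, X →L[ℝ] H l
  pr_le : ∀ l, ‖pr l‖ ≤ 1
  le_of : ∀ x C, 0 ≤ C → (∀ l, ‖pr l x‖ ≤ C) → ‖x‖ ≤ C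
  mask : ∀ (δ : Set Λ) x, ∃ x', ∀ l, (l ∈ δ → pr l x' = pr l x) ∧ (l ∉ δ → pr l x' = 0)
  diag : ∀ Q : ∀ l, H l →L[ℝ] H l, (∀ l, ‖Q l‖ ≤ 1) →
    ∃ S : X →L[ℝ] X, ‖S‖ ≤ 1 ∧ ∀ l x, pr l (S x) = Q l (pr l x)
  glue : ∀ (R : ∀ l, X →L[ℝ] H l) (C : ℝ), 0 ≤ C → (∀ l, ‖R l‖ ≤ C) →
    (∀ n y, ∃ x', ∀ l, pr l x' = R l (ι n y)) →
    ∃ S : X →L[ℝ] X, ‖S‖ ≤ C ∧ ∀ l x, pr l (S x) = R l x

lemma norm_single_le {u : ℕ → ℕ} {p : ℝ≥0∞} [Fact (1 ≤ p)] (n : ℕ) :
    ‖lp.singleContinuousLinearMap ℝ (E u) p n‖ ≤ 1 := by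
  refine ContinuousLinearMap.opNorm_le_bound _ zero_le_one fun y => ?_
  rw [one_mul]
  exact (lp.norm_single (lt_of_lt_of_le zero_lt_one Fact.out) n y).le

/-- `U_*` for `p = 2` -/
noncomputable def col2 (u : ℕ → ℕ) : ColSpace u (lp (E u) 2) Unit (fun _ => lp (E u) 2) where
  co := { toFun := fun x n => x n
          map_add' := fun _ _ => rfl
          map_smul' := fun _ _ => rfl }
  co_le := fun x n => lp.norm_apply_le_norm (by norm_num) x n
  ι := fun n => lp.singleContinuousLinearMap ℝ (E u) 2 n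
  ι_le := fun n => norm_single_le n
  co_ι := fun n y m => rfl
  ext := fun x x' h => lp.ext h
  shift := fun b R C hC hR hinj => exists_shift (by norm_num) b R hC hR hinj
  pr := fun _ => ContinuousLinearMap.id ℝ _
  pr_le := fun _ => ContinuousLinearMap.norm_id_le
  le_of := fun x C _ h => h ()
  mask := fun δ x => by
    by_cases h : () ∈ δ
    · exact ⟨x, fun _ => ⟨fun _ => rfl, fun h' => absurd h h'⟩⟩
    · exact ⟨0, fun _ => ⟨fun h' => absurd h' h, fun _ => rfl⟩⟩
  diag := fun Q hQ => ⟨Q (), hQ (), fun _ _ => rfl⟩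
  glue := fun R C _ hR _ => ⟨R (), hR (), fun _ _ => rfl⟩

section c0

variable {u : ℕ → ℕ}

lemma c0_finite (x : USt1 u) {ε : ℝ} (hε : 0 < ε) : {n | ε ≤ ‖x.1 n‖}.Finite := by
  have h1 : Tendsto (fun n => ‖x.1 n‖) atTop (𝓝 0) := x.2
  have h2 : ∀ᶠ n in atTop, ‖x.1 n‖ < ε := h1.eventually (gt_mem_nhds hε)
  rw [← Nat.cofinite_eq_atTop, Filter.eventually_cofinite] at h2
  refine h2.subset ?_
  intro n hn
  simp only [Set.mem_ofPred_eq, not_lt] at hn ⊢
  exact hn

lemma tendsto_of_finite {f : ℕ → ℝ} (hf0 : ∀ n, 0 ≤ f n)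
    (hf : ∀ ε : ℝ, 0 < ε → {n | ε ≤ f n}.Finite) : Tendsto f atTop (𝓝 0) := by
  rw [← Nat.cofinite_eq_atTop, tendsto_order]
  refine ⟨fun a ha => Eventually.of_forall fun n => lt_of_lt_of_le ha (hf0 n), ?_⟩
  intro ε hε
  rw [Filter.eventually_cofinite]
  simpa only [not_lt] using hf ε hε

lemma c0_mk (f : ∀ n, E u n) (hf : Tendsto (fun n => ‖f n‖) atTop (𝓝 0)) :
    ∃ x : USt1 u, ∀ n, x.1 n = f n := by
  obtain ⟨C, hC⟩ := hf.bddAbove_range
  exact ⟨⟨⟨f, memℓp_infty ⟨C, hC⟩⟩, hf⟩, fun n => rfl⟩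

lemma c0_le (x : USt1 u) (n : ℕ) : ‖x.1 n‖ ≤ ‖x‖ := lp.norm_apply_le_norm ENNReal.top_ne_zero x.1 n

lemma c0_norm_le {x : USt1 u} {C : ℝ} (hC : 0 ≤ C) (h : ∀ n, ‖x.1 n‖ ≤ C) : ‖x‖ ≤ C :=
  lp.norm_le_of_forall_le (f := x.1) hC h

lemma c0_ext {x y : USt1 u} (h : ∀ n, x.1 n = y.1 n) : x = y :=
  Subtype.ext (lp.ext (funext h))

lemma c0_op {X : Type} [NormedAddCommGroup X] [NormedSpace ℝ X]
    (f : ∀ n, X →ₗ[ℝ] E u n) {C : ℝ} (hC : 0 ≤ C) (hf : ∀ x n, ‖f n x‖ ≤ C * ‖x‖)
    (hex : ∀ x, Tendsto (fun n => ‖f n x‖) atTop (𝓝 0)) :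
    ∃ T : X →L[ℝ] USt1 u, ‖T‖ ≤ C ∧ ∀ x n, (T x).1 n = f n x := by
  choose z hz using fun x => c0_mk (fun n => f n x) (hex x)
  refine ⟨LinearMap.mkContinuous
    { toFun := z
      map_add' := fun x y => c0_ext fun n => by
        rw [hz, map_add, ← hz x n, ← hz y n]
        rfl
      map_smul' := fun c x => c0_ext fun n => by
        rw [hz, map_smul, ← hz x n]
        rfl } C (fun x => ?_), LinearMap.mkContinuous_norm_le _ hC _, fun x => hz x⟩
  refine c0_norm_le (by positivity) fun n => ?_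
  change ‖(z x).1 n‖ ≤ _
  rw [hz]
  exact hf x n

/-- the embeddings of the blocks -/
noncomputable def c0single (n : ℕ) : E u n →L[ℝ] USt1 u :=
  LinearMap.mkContinuous
    { toFun := fun y => ⟨lp.single ∞ n y, by
        change Tendsto (fun m => ‖(lp.single ∞ n y : lp (E u) ∞) m‖) atTop (𝓝 0)
        refine tendsto_const_nhds.congr' ?_
        filter_upwards [eventually_gt_atTop n] with m hm
        rw [lp.single_apply_ne _ _ _ hm.ne', norm_zero]⟩
      map_add' := fun y z => Subtype.ext (lp.single_add _ _ _ _)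
      map_smul' := fun c y => Subtype.ext (lp.single_smul _ _ _ _) } 1 (fun y => by
        rw [one_mul]
        exact (lp.norm_single (E := E u) (p := ∞) (by norm_num) n y).le)

lemma c0single_apply (n : ℕ) (y : E u n) (m : ℕ) :
    (c0single n y : USt1 u).1 m = Pi.single n y m := rfl

/-- the tail of an element of a `c₀`-sum is small -/
lemma c0_tail (x : USt1 u) {ε : ℝ} (hε : 0 < ε) :
    ∃ N : ℕ, ‖x - ∑ n ∈ Finset.range N, c0single n (x.1 n)‖ ≤ ε := by
  have h1 : Tendsto (fun n => ‖x.1 n‖) atTop (𝓝 0) := x.2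
  obtain ⟨N, hN⟩ := eventually_atTop.1 (h1.eventually (gt_mem_nhds hε))
  refine ⟨N, c0_norm_le hε.le fun m => ?_⟩
  have h2 : (x - ∑ n ∈ Finset.range N, c0single n (x.1 n)).1 m =
      x.1 m - ∑ n ∈ Finset.range N, (c0single n (x.1 n)).1 m := by
    rw [Submodule.coe_sub, Submodule.coe_sum, lp.coeFn_sub, Pi.sub_apply, lp.coeFn_sum,
      Finset.sum_apply]
  rw [h2]
  simp only [c0single_apply]
  by_cases hm : m < N
  · rw [Finset.sum_eq_single m]
    · rw [Pi.single_eq_same, sub_self, norm_zero]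
      exact hε.le
    · intro n _ hn
      exact Pi.single_eq_of_ne (Ne.symm hn) _
    · intro h
      exact absurd (Finset.mem_range.2 hm) h
  · rw [Finset.sum_eq_zero, sub_zero]
    · exact (hN m (not_lt.1 hm)).le
    · intro n hn
      have : m ≠ n := by
        have := Finset.mem_range.1 hn
        omega
      exact Pi.single_eq_of_ne this _

/-- `U_*` for `p = 1` -/
noncomputable def col1 (u : ℕ → ℕ) : ColSpace u (USt1 u) ℕ (fun n => E u n) where
  co := { toFun := fun x n => x.1 n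
          map_add' := fun _ _ => rfl
          map_smul' := fun _ _ => rfl }
  co_le := fun x n => c0_le x n
  ι := fun n => c0single n
  ι_le := fun n => LinearMap.mkContinuous_norm_le _ zero_le_one _
  co_ι := fun n y m => rfl
  ext := fun x x' h => c0_ext fun n => congrFun h n
  shift := fun b R C hC hR hinj => by
    refine c0_op (fun k => (R k).toLinearMap ∘ₗ
      { toFun := fun x : USt1 u => x.1 (b k)
        map_add' := fun _ _ => rfl
        map_smul' := fun _ _ => rfl }) hC (fun x k => ?_) (fun x => ?_)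
    · change ‖R k (x.1 (b k))‖ ≤ _
      refine ((R k).le_opNorm _).trans ?_
      gcongr
      · exact hR k
      · exact c0_le x _
    · refine tendsto_of_finite (fun n => norm_nonneg _) fun ε hε => ?_
      have h1 : {n | ε / (C + 1) ≤ ‖x.1 n‖}.Finite := c0_finite x (by positivity)
      refine Set.Finite.of_finite_image (f := b) (h1.subset ?_) ?_
      · rintro _ ⟨k, hk, rfl⟩
        have h2 : ε ≤ ‖R k (x.1 (b k))‖ := hk
        have h3 : ‖R k (x.1 (b k))‖ ≤ (C + 1) * ‖x.1 (b k)‖ :=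
          ((R k).le_opNorm _).trans (by gcongr; exact (hR k).trans (by linarith))
        change ε / (C + 1) ≤ ‖x.1 (b k)‖
        rw [div_le_iff₀ (by positivity)]
        linarith
      · intro k hk k' hk' hkk
        have h0 : ∀ k, ε ≤ ‖R k (x.1 (b k))‖ → R k ≠ 0 := by
          intro k hk h
          rw [h] at hk
          simp only [zero_apply, norm_zero] at hk
          linarith
        exact hinj k k' hkk (h0 k hk) (h0 k' hk')
  pr := fun l => LinearMap.mkContinuous
    { toFun := fun x : USt1 u => x.1 l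
      map_add' := fun _ _ => rfl
      map_smul' := fun _ _ => rfl } 1 (fun x => by
        rw [one_mul]
        exact c0_le x l)
  pr_le := fun l => LinearMap.mkContinuous_norm_le _ zero_le_one _
  le_of := fun x C hC h => c0_norm_le hC h
  mask := fun δ x => by
    classical
    obtain ⟨x', hx'⟩ := c0_mk (u := u) (fun n => if n ∈ δ then x.1 n else 0) (by
      refine squeeze_zero (fun n => norm_nonneg _) (fun n => ?_) x.2
      split_ifs
      · exact le_rfl
      · rw [norm_zero]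
        exact norm_nonneg _)
    refine ⟨x', fun l => ⟨fun h => ?_, fun h => ?_⟩⟩
    · change x'.1 l = x.1 l
      rw [hx', if_pos h]
    · change x'.1 l = 0
      rw [hx', if_neg h]
  diag := fun Q hQ => by
    obtain ⟨S, hS, hSa⟩ := c0_op (u := u) (fun k => (Q k).toLinearMap ∘ₗ
      { toFun := fun x : USt1 u => x.1 k
        map_add' := fun _ _ => rfl
        map_smul' := fun _ _ => rfl }) zero_le_one (fun x k => by
        change ‖Q k (x.1 k)‖ ≤ _
        refine ((Q k).le_opNorm _).trans ?_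
        gcongr
        · exact hQ k
        · exact c0_le x _) (fun x => by
        refine squeeze_zero (fun n => norm_nonneg _) (fun n => ?_) x.2
        change ‖Q n (x.1 n)‖ ≤ _
        refine ((Q n).le_opNorm _).trans ?_
        calc ‖Q n‖ * ‖x.1 n‖ ≤ 1 * ‖x.1 n‖ := by
              gcongr
              exact hQ n
          _ = ‖x.1 n‖ := one_mul _)
    exact ⟨S, hS, fun l x => hSa x l⟩
  glue := fun R C hC hR hex => by
    obtain ⟨S, hS, hSa⟩ := c0_op (u := u) (fun k => (R k).toLinearMap) hC (fun x k => by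
        change ‖R k x‖ ≤ _
        refine ((R k).le_opNorm _).trans ?_
        gcongr
        exact hR k) (fun x => by
        rw [Metric.tendsto_atTop]
        intro ε hε
        obtain ⟨N, hN⟩ := c0_tail x (ε := ε / (2 * (C + 1))) (by positivity)
        have h1 : Tendsto (fun l => ∑ n ∈ Finset.range N, ‖R l (c0single n (x.1 n))‖) atTop
            (𝓝 (∑ n ∈ Finset.range N, (0 : ℝ))) := by
          refine tendsto_finsetSum _ fun n _ => ?_
          obtain ⟨x', hx'⟩ := hex n (x.1 n)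
          refine (x'.2 : Tendsto (fun l => ‖x'.1 l‖) atTop (𝓝 0)).congr fun l => ?_
          rw [← hx' l]
          rfl
        rw [Finset.sum_const_zero] at h1
        obtain ⟨l₀, hl₀⟩ := eventually_atTop.1 (h1.eventually (gt_mem_nhds (half_pos hε)))
        refine ⟨l₀, fun l hl => ?_⟩
        rw [dist_zero_right, norm_norm]
        change ‖R l x‖ < ε
        have h2 : R l x = R l (x - ∑ n ∈ Finset.range N, c0single n (x.1 n)) +
            ∑ n ∈ Finset.range N, R l (c0single n (x.1 n)) := by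
          rw [map_sub, map_sum]
          abel
        have h3 : ‖R l (x - ∑ n ∈ Finset.range N, c0single n (x.1 n))‖ ≤ ε / 2 := by
          refine ((R l).le_opNorm _).trans ?_
          calc ‖R l‖ * ‖x - ∑ n ∈ Finset.range N, c0single n (x.1 n)‖
              ≤ C * (ε / (2 * (C + 1))) := by
                gcongr
                exact hR l
            _ ≤ (C + 1) * (ε / (2 * (C + 1))) := by
                gcongr
                linarith
            _ = ε / 2 := by
                field_simp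
        have h4 := hl₀ l hl
        have h5 := norm_sum_le (Finset.range N) fun n => R l (c0single n (x.1 n))
        have h6 := norm_add_le (R l (x - ∑ n ∈ Finset.range N, c0single n (x.1 n)))
          (∑ n ∈ Finset.range N, R l (c0single n (x.1 n)))
        rw [← h2] at h6
        linarith)
    exact ⟨S, hS, fun l x => hSa x l⟩

instance : CompleteSpace (USt1 u) := by
  have h1 : IsClosed ((c0Sub (E u) : Submodule ℝ (lp (E u) ∞)) : Set (lp (E u) ∞)) := by
    refine isClosed_of_closure_subset fun w hw => ?_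
    rw [Metric.mem_closure_iff] at hw
    change Tendsto (fun n => ‖w n‖) atTop (𝓝 0)
    rw [Metric.tendsto_atTop]
    intro ε hε
    obtain ⟨w', hw', hd⟩ := hw (ε / 2) (half_pos hε)
    have h2 : Tendsto (fun n => ‖w' n‖) atTop (𝓝 0) := hw'
    obtain ⟨N, hN⟩ := eventually_atTop.1 (h2.eventually (gt_mem_nhds (half_pos hε)))
    refine ⟨N, fun n hn => ?_⟩
    rw [dist_zero_right, norm_norm]
    have h3 := lp.norm_apply_le_norm ENNReal.top_ne_zero (w - w') n
    rw [lp.coeFn_sub, Pi.sub_apply] at h3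
    rw [dist_eq_norm] at hd
    have h4 := hN n hn
    have h5 := norm_add_le (w n - w' n) (w' n)
    rw [sub_add_cancel] at h5
    linarith
  exact h1.completeSpace_coe

end c0

end Pool.Agent.Lib.MP_537232_an
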