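import Pool.Agent.Lib.MP_537232_an.KProws

set_option autoImplicit false

/-!
# Meets for the maps `φ₁`, `φ₂` in the cases `p = 1` and `p = 2`
-/

open scoped ENNReal Topology
open Filter

namespace Pool.Agent.Lib.MP_537232_an

section Exist

variable {p : ℝ≥0∞} [Fact (1 ≤ p)] (P : Params p)
  {Z : Type} [NormedAddCommGroup Z] [NormedSpace ℝ Z] (hZ : CoordSpace P.v Z)

include hZ

lemma exists_T (hp : p ≠ ∞) (M : Set ℕ) : ∃ T : USp P.u p →L[ℝ] Z, IsT P hZ M T := by
  classical
  have hp0 : p ≠ 0 := (lt_of_lt_of_le zero_lt_one (Fact.out : (1 : ℝ≥0∞) ≤ p)).ne'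
  set f : USp P.u p →ₗ[ℝ] (Ix P.v → ℝ) :=
    { toFun := fun x ν => if ν.1 ∈ M then inner ℝ (x ν.1) (P.g ν.1 ν.2) else 0
      map_add' := fun x y => by
        funext ν
        rw [Pi.add_apply]
        split_ifs
        · rw [lp.coeFn_add, Pi.add_apply, inner_add_left]
        · rw [add_zero]
      map_smul' := fun c x => by
        funext ν
        rw [Pi.smul_apply]
        split_ifs
        · rw [lp.coeFn_smul, Pi.smul_apply, real_inner_smul_left]
          rfl
        · rw [smul_zero] } with hf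
  have hfa : ∀ x ν, f x ν = if ν.1 ∈ M then inner ℝ (x ν.1) (P.g ν.1 ν.2) else 0 :=
    fun x ν => rfl
  have hle : ∀ x ν, |f x ν| ≤ ‖x ν.1‖ := by
    intro x ν
    rw [hfa]
    split_ifs
    · have h := abs_real_inner_le_norm (x ν.1) (P.g ν.1 ν.2)
      rwa [P.norm_g, mul_one] at h
    · rw [abs_zero]
      exact norm_nonneg _
  obtain ⟨T, _, hT⟩ := hZ.exists_op f zero_le_one (fun x ν => by
    rw [one_mul]
    exact (hle x ν).trans (lp.norm_apply_le_norm hp0 x ν.1)) (fun x => hZ.exists_of _ fun ε hε => by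
    refine (finite_fst (finite_large hp x hε)).subset ?_
    intro ν hν
    exact (show ε ≤ |f x ν| from hν).trans (hle x ν))
  refine ⟨T, fun x ν => ?_⟩
  rw [hT, hfa]

lemma exists_I (hp : p ≠ ∞) : ∃ I : USp P.u p →L[ℝ] Z, IsI P hZ I := by
  have hp0 : p ≠ 0 := (lt_of_lt_of_le zero_lt_one (Fact.out : (1 : ℝ≥0∞) ≤ p)).ne'
  set f : USp P.u p →ₗ[ℝ] (Ix P.v → ℝ) :=
    { toFun := fun x ν => x (P.tw ν).1 (P.tw ν).2
      map_add' := fun x y => rfl
      map_smul' := fun c x => rfl } with hf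
  have hfa : ∀ x ν, f x ν = x (P.tw ν).1 (P.tw ν).2 := fun x ν => rfl
  have hle : ∀ x ν, |f x ν| ≤ ‖x (P.tw ν).1‖ := by
    intro x ν
    rw [hfa, ← Real.norm_eq_abs]
    exact PiLp.norm_apply_le (x (P.tw ν).1) (P.tw ν).2
  obtain ⟨I, _, hI⟩ := hZ.exists_op f zero_le_one (fun x ν => by
    rw [one_mul]
    exact (hle x ν).trans (lp.norm_apply_le_norm hp0 x _)) (fun x => hZ.exists_of _ fun ε hε => by
    have h1 : {μ : Ix P.u | μ.1 ∈ {n | ε ≤ ‖x n‖}}.Finite := finite_fst (finite_large hp x hε)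
    refine (h1.preimage (f := P.tw) (fun ν _ μ _ h => P.tw_injective h)).subset ?_
    intro ν hν
    exact (show ε ≤ |f x ν| from hν).trans (hle x ν))
  exact ⟨I, fun x ν => congrFun (hI x) ν⟩

end Exist

/-- The meet theorem for operators into `V` or `W`. -/
theorem meet_rows {p : ℝ≥0∞} [Fact (1 ≤ p)] (hp : p = 1 ∨ p = 2) (P : Params p)
    {Z : Type} [NormedAddCommGroup Z] [NormedSpace ℝ Z] (hZ : CoordSpace P.v Z)
    {T : Set ℕ → (USp P.u p →L[ℝ] Z)} (hT : ∀ M, IsT P hZ M (T M))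
    {I : USp P.u p →L[ℝ] Z} (hI : IsI P hZ I) (M N : Set ℕ) :
    phi T I (M ∩ N) = phi T I M ⊓ phi T I N := by
  have hptop : p ≠ ∞ := by
    rcases hp with rfl | rfl
    · exact ENNReal.one_ne_top
    · exact ENNReal.ofNat_ne_top
  refine meet_right T I (fun M M' h => T_mono P hZ hT h) (fun M h => I_mem P hZ hT hI hptop h)
    (fun M h => T_finite P hZ hT hI h) ?_ M N
  rcases hp with rfl | rfl
  · intro ls L
    classical
    set inj : ∀ l : ℕ, E P.u l →L[ℝ] USp P.u 1 := fun l =>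
      LinearMap.mkContinuous (lp.lsingle (𝕜 := ℝ) (E := E P.u) 1 l) 1 (fun x => by
        rw [one_mul]
        exact (lp.norm_single (E := E P.u) (p := 1) (by norm_num) l x).le) with hinj
    have hinja : ∀ l x, inj l x = lp.single 1 l x := fun l x => rfl
    refine KP_rows P hZ hT hI (H := fun l => E P.u l) inj (fun l => ?_) (fun R C hC hR => ?_)
      (fun S C hC hS => ?_) (Or.inl rfl) ls L
    · exact LinearMap.mkContinuous_norm_le _ zero_le_one _
    · exact exists_lift R hC hR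
    · exact norm_le_of_single S hC hS
  · intro ls L
    refine KP_rows P hZ hT hI (Λ := Unit) (H := fun _ => USp P.u 2)
      (fun _ => ContinuousLinearMap.id ℝ _) (fun _ => ContinuousLinearMap.norm_id_le)
      (fun R C hC hR => ⟨R (), hR (), fun _ x => rfl⟩)
      (fun S C hC hS => S.opNorm_le_bound hC fun x => hS () x) (Or.inr rfl) ls L

end Pool.Agent.Lib.MP_537232_an
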