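import Pool.Agent.Lib.MP_537232_an.ColSpace
import Pool.Agent.Lib.MP_537232_an.RowsMain

set_option autoImplicit false

/-!
# Operators from `V*` to `U_*`: the easy facts
-/

open scoped ENNReal Topology
open Filter

namespace Pool.Agent.Lib.MP_537232_an

variable {p : ℝ≥0∞} (P : Params p)
  {X : Type} [NormedAddCommGroup X] [NormedSpace ℝ X]
  {Λ : Type} {H : Λ → Type} [∀ l, NormedAddCommGroup (H l)] [∀ l, InnerProductSpace ℝ (H l)]
  (hX : ColSpace P.u X Λ H)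

open Classical in
/-- `S` is the operator `S_M`. -/
def IsS (M : Set ℕ) (S : YSp P.v →L[ℝ] X) : Prop :=
  ∀ ν, S (eY P.v ν) = if ν.1 ∈ M then hX.ι ν.1 (P.g ν.1 ν.2) else 0

/-- `I` is the formal inclusion. -/
def IsIS (I : YSp P.v →L[ℝ] X) : Prop :=
  ∀ ν, I (eY P.v ν) = hX.ι (P.tw ν).1 (EuclideanSpace.single (P.tw ν).2 1)

omit [∀ l, NormedAddCommGroup (H l)] [∀ l, InnerProductSpace ℝ (H l)] in
open Classical in
/-- projections of `V*` -/
lemma exists_projY (s : Set (Ix P.v)) : ∃ S : YSp P.v →L[ℝ] YSp P.v, ‖S‖ ≤ 1 ∧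
    ∀ ν, S (eY P.v ν) = if ν ∈ s then eY P.v ν else 0 := by
  obtain ⟨S, hS, h⟩ := Y_shuffle (v := P.v) (fun μ => if μ ∈ s then some μ else none)
  refine ⟨S, hS, fun ν => ?_⟩
  rw [h]
  split_ifs <;> rfl

variable {S : Set ℕ → (YSp P.v →L[ℝ] X)} (hS : ∀ M, IsS P hX M (S M))
  {I : YSp P.v →L[ℝ] X} (hI : IsIS P hX I)

include hS in
lemma S_mono {M M' : Set ℕ} (h : M' ⊆ M) : S M' ∈ idealGen (S M) := by
  classical
  obtain ⟨B, _, hB⟩ := exists_projY P {μ | μ.1 ∈ M'}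
  have h1 : S M' = (S M).comp B := by
    refine Y_ext fun ν => ?_
    change _ = S M (B (eY P.v ν))
    rw [hB, hS M']
    by_cases h2 : ν.1 ∈ M'
    · rw [if_pos h2, if_pos (show ν ∈ {μ : Ix P.v | μ.1 ∈ M'} from h2), hS M, if_pos (h h2)]
    · rw [if_neg h2, if_neg (show ¬ ν ∈ {μ : Ix P.v | μ.1 ∈ M'} from h2), map_zero]
  rw [h1]
  exact (isClosedIdeal_idealGen _).right _ (mem_idealGen _)

include hX hI in
/-- operators which vanish on almost all unit vectors -/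
lemma finite_memY (R : YSp P.v →L[ℝ] X) {n₀ : ℕ}
    (hR : ∀ ν : Ix P.v, n₀ ≤ ν.1 → R (eY P.v ν) = 0) : R ∈ idealGen I := by
  classical
  have hfin : {ν : Ix P.v | ν.1 ∈ Set.Iio n₀}.Finite := finite_fst (Set.finite_Iio n₀)
  set s := hfin.toFinset with hs
  set o : Ix P.v := ⟨0, ⟨0, P.v_pos 0⟩⟩ with ho
  have htw : P.tw o = ⟨0, ⟨0, P.u_pos 0⟩⟩ := by
    have h1 : pos P.v o.1 o.2 = pos P.u 0 ⟨0, P.u_pos 0⟩ := by
      change pos P.v 0 ⟨0, P.v_pos 0⟩ = pos P.u 0 ⟨0, P.u_pos 0⟩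
      simp [pos]
    unfold Params.tw
    rw [h1]
    exact unpos_pos P.u_pos ⟨0, ⟨0, P.u_pos 0⟩⟩
  have hIo : I (eY P.v o) = hX.ι 0 (EuclideanSpace.single ⟨0, P.u_pos 0⟩ 1) := by
    rw [hI, htw]
  -- the coordinate functional
  obtain ⟨f, hf⟩ : ∃ f : X →L[ℝ] ℝ, ∀ x, f x = hX.co x 0 ⟨0, P.u_pos 0⟩ :=
    ⟨LinearMap.mkContinuous
      { toFun := fun x => hX.co x 0 ⟨0, P.u_pos 0⟩
        map_add' := fun x y => by rw [map_add]; rfl
        map_smul' := fun c x => by rw [map_smul]; rfl } 1 (fun x => by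
          rw [one_mul]
          exact (PiLp.norm_apply_le (hX.co x 0) ⟨0, P.u_pos 0⟩).trans (hX.co_le x 0)),
      fun x => rfl⟩
  have hfI : f (I (eY P.v o)) = 1 := by
    rw [hf, hIo, hX.co_ι, Pi.single_eq_same]
    simp
  have hsh : ∀ ν : Ix P.v, ∃ B : YSp P.v →L[ℝ] YSp P.v, ∀ μ,
      B (eY P.v μ) = if μ = ν then eY P.v o else 0 := by
    intro ν
    obtain ⟨B, _, h⟩ := Y_shuffle (v := P.v) (fun μ => if μ = ν then some o else none)
    refine ⟨B, fun μ => ?_⟩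
    rw [h]
    split_ifs <;> rfl
  choose B hB using hsh
  have hsum : R = ∑ ν ∈ s, ((f.smulRight (R (eY P.v ν))).comp I).comp (B ν) := by
    refine Y_ext fun μ => ?_
    rw [sum_apply]
    have h1 : ∀ ν ∈ s, (((f.smulRight (R (eY P.v ν))).comp I).comp (B ν)) (eY P.v μ) =
        if μ = ν then R (eY P.v ν) else 0 := by
      intro ν _
      change f (I (B ν (eY P.v μ))) • R (eY P.v ν) = _
      rw [hB]
      by_cases h : μ = ν
      · rw [if_pos h, if_pos h, hfI, one_smul]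
      · rw [if_neg h, if_neg h, map_zero, map_zero, zero_smul]
    rw [Finset.sum_congr rfl h1, Finset.sum_ite_eq]
    split_ifs with h2
    · rfl
    · refine hR μ ?_
      by_contra h3
      exact h2 (hfin.mem_toFinset.2 (not_le.1 h3))
  rw [hsum]
  refine Submodule.sum_mem _ fun ν _ => ?_
  exact (isClosedIdeal_idealGen _).comp _ _ _ (mem_idealGen _)

include hS hI in
lemma S_finite {M : Set ℕ} (hM : M.Finite) : S M ∈ idealGen I := by
  obtain ⟨n₀, hn₀⟩ := hM.bddAbove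
  refine finite_memY P hX hI (S M) (n₀ := n₀ + 1) fun ν hν => ?_
  rw [hS M, if_neg]
  intro h
  have := hn₀ h
  omega

include hS hI in
lemma IS_mem {M : Set ℕ} (hM : M.Infinite) : I ∈ idealGen (S M) := by
  classical
  have hmono : StrictMono P.u := P.u_strictMono
  set n : ℕ → ℕ := fun m => Nat.nth (· ∈ M) (P.u m + m) with hn
  have hnth : StrictMono (Nat.nth (· ∈ M)) := Nat.nth_strictMono hM
  have hge : ∀ k, k ≤ Nat.nth (· ∈ M) k := fun k => hnth.le_apply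
  have hninj : Function.Injective n := by
    intro m m' h
    have h1 := hnth.injective h
    by_contra hne
    rcases Nat.lt_or_gt_of_ne hne with h2 | h2
    · have := hmono h2; omega
    · have := hmono h2; omega
  have hnM : ∀ m, n m ∈ M := fun m => Nat.nth_mem_of_infinite hM _
  have hnu : ∀ m, P.u m ≤ n m := fun m => (Nat.le_add_right _ _).trans (hge _)
  have hnm : ∀ m, m ≤ n m := fun m => (Nat.le_add_left _ _).trans (hge _)
  have hd : ∀ m, P.u m ≤ P.v (n m) := fun m =>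
    (hmono.monotone (hnm m)).trans (P.u_lt_v (n m)).le
  have hd' : ∀ m, ((P.u m : ℕ) : ℝ) ≤ 19 * ((n m : ℝ) + 1) ^ 2 := by
    intro m
    have h1 : ((P.u m : ℕ) : ℝ) ≤ (n m : ℝ) := by exact_mod_cast hnu m
    nlinarith [(Nat.cast_nonneg (n m) : (0 : ℝ) ≤ (n m : ℝ))]
  have hL : ∀ m, ∃ A : E P.u (n m) →L[ℝ] E P.u m, ‖A‖ ≤ 2 ∧
      ∀ t, A (P.g (n m) (Fin.castLE (hd m) t)) = EuclideanSpace.single t 1 := fun m =>
    exists_dual' _ (P.lower_first (n m) (hd m) (hd' m))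
  choose A hA1 hA2 using hL
  obtain ⟨AA, _, hAA⟩ := hX.shift n A 2 (by norm_num) hA1 (fun k k' h _ _ => hninj h)
  obtain ⟨B, _, hB⟩ := Y_shuffle (v := P.v)
    (fun μ => some ⟨n (P.tw μ).1, Fin.castLE (hd _) (P.tw μ).2⟩)
  have hIeq : I = (AA.comp (S M)).comp B := by
    refine Y_ext fun μ => ?_
    change _ = AA (S M (B (eY P.v μ)))
    rw [hB, Option.elim_some, hS M, if_pos (hnM _), hI]
    refine hX.ext _ _ (funext fun k => ?_)
    rw [hAA, hX.co_ι, hX.co_ι]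
    by_cases hk : k = (P.tw μ).1
    · subst hk
      rw [Pi.single_eq_same, Pi.single_eq_same, hA2]
    · have hk' : n k ≠ n (P.tw μ).1 := fun h => hk (hninj h)
      rw [Pi.single_eq_of_ne hk, Pi.single_eq_of_ne hk', map_zero]
  rw [hIeq]
  exact (isClosedIdeal_idealGen _).comp _ _ _ (mem_idealGen _)

end Pool.Agent.Lib.MP_537232_an
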