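import Pool.Agent.Lib.MP_537232_an.KPcols

set_option autoImplicit false

/-!
# Meets for the map `φ₃` in the cases `p = 1` and `p = 2`
-/

open scoped ENNReal Topology
open Filter

namespace Pool.Agent.Lib.MP_537232_an

variable {p : ℝ≥0∞} (P : Params p)
  {X : Type} [NormedAddCommGroup X] [NormedSpace ℝ X]
  {Λ : Type} {H : Λ → Type} [∀ l, NormedAddCommGroup (H l)] [∀ l, InnerProductSpace ℝ (H l)]
  (hX : ColSpace P.u X Λ H)

lemma exists_S [CompleteSpace X] (M : Set ℕ) : ∃ S : YSp P.v →L[ℝ] X, IsS P hX M S := by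
  classical
  obtain ⟨S, _, hS⟩ := Y_lift (v := P.v) (X := X)
    (fun ν => if ν.1 ∈ M then hX.ι ν.1 (P.g ν.1 ν.2) else 0) zero_le_one (fun ν => by
      split_ifs
      · refine ((hX.ι ν.1).le_opNorm _).trans ?_
        rw [P.norm_g, mul_one]
        exact hX.ι_le _
      · rw [norm_zero]
        exact zero_le_one)
  exact ⟨S, fun ν => hS ν⟩

lemma exists_IS [CompleteSpace X] : ∃ I : YSp P.v →L[ℝ] X, IsIS P hX I := by
  obtain ⟨S, _, hS⟩ := Y_lift (v := P.v) (X := X)
    (fun ν => hX.ι (P.tw ν).1 (EuclideanSpace.single (P.tw ν).2 1)) zero_le_one (fun ν => by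
      refine ((hX.ι _).le_opNorm _).trans ?_
      rw [PiLp.norm_single, norm_one, mul_one]
      exact hX.ι_le _)
  exact ⟨S, fun ν => hS ν⟩

/-- The meet theorem for operators from `V*` to `U_*`. -/
theorem meet_cols [∀ l, CompleteSpace (H l)] (hp : p = 1 ∨ p = 2)
    {S : Set ℕ → (YSp P.v →L[ℝ] X)} (hS : ∀ M, IsS P hX M (S M))
    {I : YSp P.v →L[ℝ] X} (hI : IsIS P hX I) (M N : Set ℕ) :
    phi S I (M ∩ N) = phi S I M ⊓ phi S I N :=
  meet_left S I (fun _ _ h => S_mono P hX hS h) (fun _ h => IS_mem P hX hS hI h)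
    (fun _ h => S_finite P hX hS hI h) (KP_cols P hX hI hS hp) M N

open Classical in
/-- values on unit vectors from the formula -/
lemma isS_of_formula {M : Set ℕ} {S : YSp P.v →L[ℝ] X}
    (h : ∀ y n, hX.co (S y) n = if n ∈ M then ∑ j, y n j • P.g n j else 0) : IsS P hX M S := by
  intro ν
  refine hX.ext _ _ (funext fun k => ?_)
  rw [h]
  have h1 : ∀ j : Fin (P.v k), (eY P.v ν : ∀ n, PiLp 1 (fun _ : Fin (P.v n) => ℝ)) k j =
      if (⟨k, j⟩ : Ix P.v) = ν then 1 else 0 := by
    intro j
    unfold eY
    by_cases hk : k = ν.1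
    · obtain ⟨n, i⟩ := ν
      simp only at hk
      subst hk
      rw [lp.single_apply_self, PiLp.single_apply]
      by_cases hj : j = i
      · rw [if_pos hj, if_pos (by rw [hj])]
      · rw [if_neg hj, if_neg]
        intro h2
        apply hj
        simpa using h2
    · rw [lp.single_apply_ne _ _ _ hk, if_neg]
      · rfl
      · intro h2
        exact hk (congrArg Sigma.fst h2)
  simp only [h1, ite_smul, one_smul, zero_smul]
  obtain ⟨n, i⟩ := ν
  by_cases hk : k = n
  · subst hk
    by_cases hM : k ∈ M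
    · rw [if_pos hM, if_pos hM, hX.co_ι, Pi.single_eq_same]
      rw [Finset.sum_eq_single i]
      · rw [if_pos rfl]
      · intro j _ hj
        rw [if_neg]
        intro h2
        apply hj
        simpa using h2
      · intro h2
        exact absurd (Finset.mem_univ _) h2
    · rw [if_neg hM, if_neg hM, map_zero]
      rfl
  · have h3 : ∀ j : Fin (P.v k), ¬ (⟨k, j⟩ : Ix P.v) = ⟨n, i⟩ := by
      intro j h2
      exact hk (congrArg Sigma.fst h2)
    simp only [h3, if_false, Finset.sum_const_zero, ite_self]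
    split_ifs
    · rw [hX.co_ι, Pi.single_eq_of_ne hk]
    · rw [map_zero]
      rfl

/-- the formula from the values on unit vectors -/
lemma formula_of_isS {M : Set ℕ} [DecidablePred (· ∈ M)] {S : YSp P.v →L[ℝ] X} (hS : IsS P hX M S)
    (y : YSp P.v) (n : ℕ) :
    hX.co (S y) n = if n ∈ M then ∑ j, y n j • P.g n j else 0 := by
  classical
  obtain ⟨D, hD⟩ : ∃ D : YSp P.v →L[ℝ] E P.u n, ∀ y, D y =
      hX.co (S y) n - if n ∈ M then ∑ j, y n j • P.g n j else 0 := by
    obtain ⟨R, hR⟩ : ∃ R : PiLp 1 (fun _ : Fin (P.v n) => ℝ) →L[ℝ] E P.u n, ∀ z, R z =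
        if n ∈ M then ∑ j, z j • P.g n j else 0 := by
      refine ⟨LinearMap.toContinuousLinearMap
        { toFun := fun z => if n ∈ M then ∑ j, z j • P.g n j else 0
          map_add' := fun a b => by
            split_ifs
            · simp only [PiLp.add_apply, add_smul, Finset.sum_add_distrib]
            · rw [add_zero]
          map_smul' := fun c a => by
            split_ifs
            · simp only [PiLp.smul_apply, smul_eq_mul, mul_smul, Finset.smul_sum,
                RingHom.id_apply]
            · rw [smul_zero] }, fun z => rfl⟩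
    obtain ⟨C, hC⟩ : ∃ C : X →L[ℝ] E P.u n, ∀ x, C x = hX.co x n :=
      ⟨LinearMap.mkContinuous
        { toFun := fun x => hX.co x n
          map_add' := fun x y => by rw [map_add]; rfl
          map_smul' := fun c x => by rw [map_smul]; rfl } 1 (fun x => by
            rw [one_mul]
            exact hX.co_le x n), fun x => rfl⟩
    refine ⟨C.comp S - R.comp (lp.evalCLM ℝ (fun n => PiLp 1 (fun _ : Fin (P.v n) => ℝ)) 1 n),
      fun y => ?_⟩
    change C (S y) - R (y n) = _
    rw [hC, hR]
  have h0 : D = 0 := by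
    refine Y_ext fun ν => ?_
    rw [hD, hS, zero_apply, sub_eq_zero]
    unfold eY
    obtain ⟨k, i⟩ := ν
    simp only
    by_cases hk : n = k
    · subst hk
      by_cases hM : n ∈ M
      · rw [if_pos hM, if_pos hM, hX.co_ι, Pi.single_eq_same, lp.single_apply_self]
        symm
        rw [Finset.sum_eq_single i]
        · rw [PiLp.single_eq_same, one_smul]
        · intro j _ hj
          rw [PiLp.single_apply, if_neg hj, zero_smul]
        · intro h
          exact absurd (Finset.mem_univ _) h
      · rw [if_neg hM, if_neg hM, map_zero]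
        rfl
    · rw [lp.single_apply_ne _ _ _ hk]
      have h1 : (if n ∈ M then ∑ j, (0 : PiLp 1 (fun _ : Fin (P.v n) => ℝ)) j • P.g n j else 0) =
          0 := by
        split_ifs
        · refine Finset.sum_eq_zero fun j _ => ?_
          rw [PiLp.zero_apply, zero_smul]
        · rfl
      rw [h1]
      split_ifs
      · rw [hX.co_ι, Pi.single_eq_of_ne hk]
      · rw [map_zero]
        rfl
  have h1 := hD y
  rw [h0, zero_apply] at h1
  exact (sub_eq_zero.1 h1.symm)

/-- values on unit vectors from the formula -/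
lemma isIS_of_formula {I : YSp P.v →L[ℝ] X}
    (h : ∀ y m t n j, pos P.v n j = pos P.u m t → hX.co (I y) m t = y n j) : IsIS P hX I := by
  classical
  intro ν
  refine hX.ext _ _ (funext fun m => ?_)
  ext t
  obtain ⟨⟨n, j⟩, hnj⟩ := pos_surjective P.v_pos (pos P.u m t)
  simp only at hnj
  rw [h (eY P.v ν) m t n j hnj, hX.co_ι]
  have htw : P.tw ⟨n, j⟩ = ⟨m, t⟩ := by
    unfold Params.tw
    simp only
    rw [hnj]
    exact unpos_pos P.u_pos ⟨m, t⟩
  unfold eY
  by_cases hν : ν = ⟨n, j⟩
  · subst hν
    simp only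
    rw [lp.single_apply_self, htw, Pi.single_eq_same, PiLp.single_eq_same, PiLp.single_eq_same]
  · have h1 : P.tw ν ≠ ⟨m, t⟩ := fun h2 => hν (P.tw_injective (h2.trans htw.symm))
    have h2 : (Pi.single (P.tw ν).1 (EuclideanSpace.single (P.tw ν).2 (1 : ℝ)) m : E P.u m) t =
        0 := by
      by_cases hm : m = (P.tw ν).1
      · rcases hq : P.tw ν with ⟨m', t'⟩
        rw [hq] at hm h1
        simp only at hm ⊢
        subst hm
        rw [Pi.single_eq_same, PiLp.single_apply, if_neg]
        intro h3
        apply h1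
        rw [h3]
      · rw [Pi.single_eq_of_ne hm]
        rfl
    rw [h2]
    obtain ⟨k, i⟩ := ν
    simp only
    by_cases hk : n = k
    · subst hk
      rw [lp.single_apply_self, PiLp.single_apply, if_neg]
      intro h3
      apply hν
      rw [h3]
    · rw [lp.single_apply_ne _ _ _ hk]
      rfl

/-- the formula from the values on unit vectors -/
lemma formula_of_isIS {I : YSp P.v →L[ℝ] X} (hI : IsIS P hX I) (y : YSp P.v) (m : ℕ)
    (t : Fin (P.u m)) (n : ℕ) (j : Fin (P.v n)) (hnj : pos P.v n j = pos P.u m t) :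
    hX.co (I y) m t = y n j := by
  classical
  have htw : P.tw ⟨n, j⟩ = ⟨m, t⟩ := by
    unfold Params.tw
    simp only
    rw [hnj]
    exact unpos_pos P.u_pos ⟨m, t⟩
  obtain ⟨D, hD⟩ : ∃ D : YSp P.v →L[ℝ] ℝ, ∀ y, D y = hX.co (I y) m t - y n j := by
    obtain ⟨C, hC⟩ : ∃ C : X →L[ℝ] ℝ, ∀ x, C x = hX.co x m t :=
      ⟨LinearMap.mkContinuous
        { toFun := fun x => hX.co x m t
          map_add' := fun x y => by rw [map_add]; rfl
          map_smul' := fun c x => by rw [map_smul]; rfl } 1 (fun x => by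
            rw [one_mul]
            exact (PiLp.norm_apply_le (hX.co x m) t).trans (hX.co_le x m)), fun x => rfl⟩
    obtain ⟨R, hR⟩ : ∃ R : PiLp 1 (fun _ : Fin (P.v n) => ℝ) →L[ℝ] ℝ, ∀ z, R z = z j :=
      ⟨LinearMap.toContinuousLinearMap
        { toFun := fun z => z j
          map_add' := fun a b => rfl
          map_smul' := fun c a => rfl }, fun z => rfl⟩
    refine ⟨C.comp I - R.comp (lp.evalCLM ℝ (fun n => PiLp 1 (fun _ : Fin (P.v n) => ℝ)) 1 n),
      fun y => ?_⟩
    change C (I y) - R (y n) = _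
    rw [hC, hR]
  have h0 : D = 0 := by
    refine Y_ext fun ν => ?_
    rw [hD, hI, zero_apply, sub_eq_zero, hX.co_ι]
    unfold eY
    by_cases hν : ν = ⟨n, j⟩
    · subst hν
      simp only
      rw [lp.single_apply_self, htw, Pi.single_eq_same, PiLp.single_eq_same, PiLp.single_eq_same]
    · have h1 : P.tw ν ≠ ⟨m, t⟩ := fun h2 => hν (P.tw_injective (h2.trans htw.symm))
      have h2 : (Pi.single (P.tw ν).1 (EuclideanSpace.single (P.tw ν).2 (1 : ℝ)) m : E P.u m) t =
          0 := by
        by_cases hm : m = (P.tw ν).1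
        · rcases hq : P.tw ν with ⟨m', t'⟩
          rw [hq] at hm h1
          simp only at hm ⊢
          subst hm
          rw [Pi.single_eq_same, PiLp.single_apply, if_neg]
          intro h3
          apply h1
          rw [h3]
        · rw [Pi.single_eq_of_ne hm]
          rfl
      rw [h2]
      obtain ⟨k, i⟩ := ν
      simp only
      symm
      by_cases hk : n = k
      · subst hk
        rw [lp.single_apply_self, PiLp.single_apply, if_neg]
        intro h3
        apply hν
        rw [h3]
      · rw [lp.single_apply_ne _ _ _ hk]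
        rfl
  have h1 := hD y
  rw [h0, zero_apply] at h1
  exact (sub_eq_zero.1 h1.symm)

end Pool.Agent.Lib.MP_537232_an
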