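import Pool.Agent.Lib.MP_537232_an.Shift

set_option autoImplicit false

/-!
# The spaces `V` and `W` and their coordinates
-/

open scoped ENNReal Topology
open Filter

namespace Pool.Agent.Lib.MP_537232_an

/-- the coordinates of a sum of blocks -/
abbrev Ix (w : ℕ → ℕ) : Type := Σ n, Fin (w n)

lemma elim_add {α : Type} (o : Option α) (f g : α → ℝ) :
    o.elim 0 (f + g) = o.elim 0 f + o.elim 0 g := by
  cases o <;> simp

lemma elim_smul {α : Type} (o : Option α) (c : ℝ) (f : α → ℝ) :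
    o.elim 0 (c • f) = c • o.elim 0 f := by
  cases o <;> simp

/-- Common features of `V` and `W`. -/
structure CoordSpace (v : ℕ → ℕ) (Z : Type) [NormedAddCommGroup Z] [NormedSpace ℝ Z] where
  c : Z →ₗ[ℝ] (Ix v → ℝ)
  c_le : ∀ z ν, |c z ν| ≤ ‖z‖
  le_of : ∀ z C, 0 ≤ C → (∀ ν, |c z ν| ≤ C) → ‖z‖ ≤ C
  exists_of : ∀ f : Ix v → ℝ, (∀ ε : ℝ, 0 < ε → {ν | ε ≤ |f ν|}.Finite) → ∃ z, c z = f
  shuffle : ∀ σ : Ix v → Option (Ix v), (∀ ν, {μ | σ μ = some ν}.Finite) →
    ∀ z, ∃ z', c z' = fun μ => (σ μ).elim 0 (c z)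

namespace CoordSpace

variable {v : ℕ → ℕ} {Z : Type} [NormedAddCommGroup Z] [NormedSpace ℝ Z] (hZ : CoordSpace v Z)
include hZ

lemma ext {z z' : Z} (h : hZ.c z = hZ.c z') : z = z' := by
  have h1 : ‖z - z'‖ ≤ 0 := hZ.le_of _ 0 le_rfl fun ν => by
    rw [map_sub, h, sub_self]
    simp
  exact sub_eq_zero.1 (norm_le_zero_iff.1 h1)

lemma exists_op {X : Type} [NormedAddCommGroup X] [NormedSpace ℝ X]
    (f : X →ₗ[ℝ] (Ix v → ℝ)) {C : ℝ} (hC : 0 ≤ C) (hf : ∀ x ν, |f x ν| ≤ C * ‖x‖)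
    (hex : ∀ x, ∃ z, hZ.c z = f x) : ∃ T : X →L[ℝ] Z, ‖T‖ ≤ C ∧ ∀ x, hZ.c (T x) = f x := by
  choose z hz using hex
  refine ⟨LinearMap.mkContinuous
    { toFun := z
      map_add' := fun x y => hZ.ext (by rw [map_add, hz, hz, hz, map_add])
      map_smul' := fun c x => hZ.ext (by rw [map_smul, hz, hz, map_smul, RingHom.id_apply]) } C
      (fun x => ?_), LinearMap.mkContinuous_norm_le _ hC _, fun x => hz x⟩
  refine hZ.le_of _ _ (by positivity) fun ν => ?_
  change |hZ.c (z x) ν| ≤ _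
  rw [hz]
  exact hf x ν

lemma exists_shuffle (σ : Ix v → Option (Ix v)) (hσ : ∀ ν, {μ | σ μ = some ν}.Finite) :
    ∃ S : Z →L[ℝ] Z, ‖S‖ ≤ 1 ∧ ∀ z μ, hZ.c (S z) μ = (σ μ).elim 0 (hZ.c z) := by
  obtain ⟨S, hS, hSc⟩ := hZ.exists_op
    (X := Z) { toFun := fun z μ => (σ μ).elim 0 (hZ.c z)
               map_add' := fun x y => by
                funext μ
                rw [map_add]
                exact elim_add _ _ _
               map_smul' := fun c x => by
                funext μ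
                rw [map_smul]
                exact elim_smul _ _ _ } zero_le_one (fun x μ => by
      change |(σ μ).elim 0 (hZ.c x)| ≤ _
      rw [one_mul]
      cases σ μ with
      | none => simp
      | some ν => exact hZ.c_le x ν) (fun z => hZ.shuffle σ hσ z)
  exact ⟨S, hS, fun z μ => congrFun (hSc z) μ⟩

/-- the coordinate functionals -/
lemma exists_coord {X : Type} [NormedAddCommGroup X] [NormedSpace ℝ X] (T : X →L[ℝ] Z)
    (ν : Ix v) : ∃ f : X →L[ℝ] ℝ, ∀ x, f x = hZ.c (T x) ν :=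
  ⟨LinearMap.mkContinuous
    { toFun := fun x => hZ.c (T x) ν
      map_add' := fun x y => by rw [map_add, map_add]; rfl
      map_smul' := fun c x => by rw [map_smul, map_smul]; rfl } ‖T‖ (fun x => by
        change ‖hZ.c (T x) ν‖ ≤ _
        rw [Real.norm_eq_abs]
        exact (hZ.c_le _ ν).trans (T.le_opNorm x)), fun x => rfl⟩

end CoordSpace

lemma finite_fst {w : ℕ → ℕ} {s : Set ℕ} (hs : s.Finite) : {ν : Ix w | ν.1 ∈ s}.Finite := by
  refine (Set.Finite.biUnion hs fun n _ => Set.finite_range (fun j : Fin (w n) =>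
    (⟨n, j⟩ : Ix w))).subset ?_
  intro ν hν
  exact Set.mem_biUnion hν ⟨ν.2, rfl⟩

lemma finite_large {u : ℕ → ℕ} {p : ℝ≥0∞} [Fact (1 ≤ p)] (hp : p ≠ ∞) (x : USp u p) {ε : ℝ}
    (hε : 0 < ε) : {n | ε ≤ ‖x n‖}.Finite := by
  have hp1 : (1 : ℝ≥0∞) ≤ p := Fact.out
  have hp0 : 0 < p.toReal := ENNReal.toReal_pos (lt_of_lt_of_le zero_lt_one hp1).ne' hp
  have h1 : Tendsto (fun n => ‖x n‖ ^ p.toReal) cofinite (𝓝 0) :=
    ((lp.memℓp x).summable hp0).tendsto_cofinite_zero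
  have h2 : ∀ᶠ n in cofinite, ‖x n‖ ^ p.toReal < ε ^ p.toReal :=
    h1.eventually (gt_mem_nhds (Real.rpow_pos_of_pos hε _))
  rw [Filter.eventually_cofinite] at h2
  refine h2.subset ?_
  intro n hn
  simp only [Set.mem_ofPred_eq, not_lt] at hn ⊢
  exact Real.rpow_le_rpow hε.le hn hp0.le

section W

variable (v : ℕ → ℕ)

lemma W_exists {f : Ix v → ℝ} {C : ℝ} (hf : ∀ ν, |f ν| ≤ C) :
    ∃ z : WSp v, ∀ ν, z ν.1 ν.2 = f ν := by
  refine ⟨⟨fun n j => f ⟨n, j⟩, ?_⟩, fun ν => rfl⟩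
  refine memℓp_infty ⟨max C 0, ?_⟩
  rintro _ ⟨n, rfl⟩
  refine (pi_norm_le_iff_of_nonneg (le_max_right _ _)).2 fun j => ?_
  rw [Real.norm_eq_abs]
  exact (hf _).trans (le_max_left _ _)

lemma W_coord_le (z : WSp v) (ν : Ix v) : |z ν.1 ν.2| ≤ ‖z‖ := by
  rw [← Real.norm_eq_abs]
  exact (norm_le_pi_norm (z ν.1) ν.2).trans (lp.norm_apply_le_norm ENNReal.top_ne_zero z ν.1)

lemma W_norm_le {z : WSp v} {C : ℝ} (hC : 0 ≤ C) (h : ∀ ν : Ix v, |z ν.1 ν.2| ≤ C) : ‖z‖ ≤ C := by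
  refine lp.norm_le_of_forall_le hC fun n => ?_
  refine (pi_norm_le_iff_of_nonneg hC).2 fun j => ?_
  rw [Real.norm_eq_abs]
  exact h ⟨n, j⟩

/-- `W` as a coordinate space -/
noncomputable def coordW : CoordSpace v (WSp v) where
  c := { toFun := fun z ν => z ν.1 ν.2
         map_add' := fun _ _ => rfl
         map_smul' := fun _ _ => rfl }
  c_le := fun z ν => W_coord_le v z ν
  le_of := fun z C hC h => W_norm_le v hC h
  exists_of := fun f hf => by
    have h1 := hf 1 one_pos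
    obtain ⟨C, hC⟩ := (h1.image fun ν => |f ν|).bddAbove
    obtain ⟨z, hz⟩ := W_exists v (f := f) (C := max C 1) (fun ν => by
      by_cases h : 1 ≤ |f ν|
      · exact (hC ⟨ν, h, rfl⟩).trans (le_max_left _ _)
      · exact (not_le.1 h).le.trans (le_max_right _ _))
    exact ⟨z, funext hz⟩
  shuffle := fun σ _ z => by
    obtain ⟨z', hz'⟩ := W_exists v (f := fun μ => (σ μ).elim 0 fun ν => z ν.1 ν.2) (C := ‖z‖)
      (fun μ => by
        cases σ μ with
        | none => simp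
        | some ν => exact W_coord_le v z ν)
    exact ⟨z', funext hz'⟩

lemma mem_V_iff {z : WSp v} :
    z ∈ c0Sub (fun n => (Fin (v n) → ℝ)) ↔ ∀ ε : ℝ, 0 < ε → {ν : Ix v | ε ≤ |z ν.1 ν.2|}.Finite := by
  constructor
  · intro hz ε hε
    have h1 : Tendsto (fun n => ‖z n‖) atTop (𝓝 0) := hz
    have h2 : ∀ᶠ n in atTop, ‖z n‖ < ε := h1.eventually (gt_mem_nhds hε)
    rw [← Nat.cofinite_eq_atTop, Filter.eventually_cofinite] at h2
    refine (finite_fst h2).subset ?_
    intro ν hν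
    simp only [Set.mem_ofPred_eq, not_lt] at hν ⊢
    refine hν.trans ?_
    rw [← Real.norm_eq_abs]
    exact norm_le_pi_norm (z ν.1) ν.2
  · intro h
    change Tendsto (fun n => ‖z n‖) atTop (𝓝 0)
    rw [← Nat.cofinite_eq_atTop]
    rw [tendsto_order]
    refine ⟨fun a ha => Eventually.of_forall fun n => lt_of_lt_of_le ha (norm_nonneg _), ?_⟩
    intro ε hε
    rw [Filter.eventually_cofinite]
    refine ((h (ε / 2) (half_pos hε)).image Sigma.fst).subset ?_
    intro n hn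
    simp only [Set.mem_ofPred_eq, not_lt] at hn
    by_contra hcon
    have h3 : ‖z n‖ ≤ ε / 2 := by
      refine (pi_norm_le_iff_of_nonneg (half_pos hε).le).2 fun j => ?_
      by_contra h4
      push Not at h4
      exact hcon ⟨⟨n, j⟩, by rw [Real.norm_eq_abs] at h4; exact h4.le, rfl⟩
    linarith

/-- `V` as a coordinate space -/
noncomputable def coordV : CoordSpace v (VSp v) where
  c := { toFun := fun z ν => z.1 ν.1 ν.2
         map_add' := fun _ _ => rfl
         map_smul' := fun _ _ => rfl }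
  c_le := fun z ν => W_coord_le v z.1 ν
  le_of := fun z C hC h => W_norm_le v hC h
  exists_of := fun f hf => by
    obtain ⟨z, hz⟩ := (coordW v).exists_of f hf
    have h1 : ∀ ν : Ix v, z ν.1 ν.2 = f ν := fun ν => congrFun hz ν
    refine ⟨⟨z, (mem_V_iff v).2 fun ε hε => ?_⟩, funext h1⟩
    simp only [h1]
    exact hf ε hε
  shuffle := fun σ hσ z => by
    obtain ⟨z', hz'⟩ := (coordW v).shuffle σ hσ z.1
    have h1 : ∀ μ : Ix v, z' μ.1 μ.2 = (σ μ).elim 0 fun ν => z.1 ν.1 ν.2 :=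
      fun ν => congrFun hz' ν
    refine ⟨⟨z', (mem_V_iff v).2 fun ε hε => ?_⟩, funext h1⟩
    have h2 := (mem_V_iff v).1 z.2 ε hε
    refine (Set.Finite.biUnion h2 fun ν _ => hσ ν).subset ?_
    intro μ hμ
    simp only [Set.mem_ofPred_eq, h1] at hμ
    cases h3 : σ μ with
    | none =>
      rw [h3] at hμ
      simp only [Option.elim_none, abs_zero] at hμ
      exact absurd hμ (not_le.2 hε)
    | some ν =>
      rw [h3] at hμ
      simp only [Option.elim_some] at hμ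
      exact Set.mem_biUnion (x := ν) hμ h3

end W

end Pool.Agent.Lib.MP_537232_an
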