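import Mathlib

set_option autoImplicit false

/-!
# Closed ideals of operators and the spaces of MP_537232_an: definitions

Blocks are numbered from `0`: the block `n` here is the block `n + 1` of the problem.
-/

open scoped ENNReal Topology
open Filter

namespace Pool.Agent.Lib.MP_537232_an

section Ideals

variable {X Y : Type} [NormedAddCommGroup X] [NormedSpace ℝ X]
  [NormedAddCommGroup Y] [NormedSpace ℝ Y]

/-- `J` is a closed ideal of the space `X →L[ℝ] Y` of bounded operators from `X` to `Y`. -/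
structure IsClosedIdeal (J : Submodule ℝ (X →L[ℝ] Y)) : Prop where
  closed : IsClosed (J : Set (X →L[ℝ] Y))
  comp : ∀ (A : Y →L[ℝ] Y) (T : X →L[ℝ] Y) (B : X →L[ℝ] X), T ∈ J → (A.comp T).comp B ∈ J

/-- The smallest closed ideal containing `T`. -/
def idealGen (T : X →L[ℝ] Y) : Submodule ℝ (X →L[ℝ] Y) :=
  sInf {J | IsClosedIdeal J ∧ T ∈ J}

open Classical in
/-- The map `M ↦ J^(T M)` for `M` infinite, `M ↦ J^I` for `M` finite. -/
noncomputable def phi (T : Set ℕ → (X →L[ℝ] Y)) (I : X →L[ℝ] Y) (M : Set ℕ) :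
    Submodule ℝ (X →L[ℝ] Y) :=
  if M.Infinite then idealGen (T M) else idealGen I

end Ideals

/-- The number `s_(n+1)` of the problem. -/
noncomputable def sNum (p : ℝ≥0∞) (u : ℕ → ℕ) (n : ℕ) : ℝ :=
  if 2 ≤ p then (2 * (u n : ℝ)) ^ (p.toReal / 2) * ((n : ℝ) + 1) ^ p.toReal
  else 2 * (u n : ℝ) * ((n : ℝ) + 1) ^ 2

/-- The number `s_n` of the problem (`s_0 = 0`). -/
noncomputable def sPrev (p : ℝ≥0∞) (u : ℕ → ℕ) : ℕ → ℝ
  | 0 => 0
  | n + 1 => sNum p u n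

/-- The data of the problem; `u n`, `v n`, `g n` are `u_(n+1)`, `v_(n+1)`, `g^(n+1)`. -/
structure Params (p : ℝ≥0∞) where
  u : ℕ → ℕ
  v : ℕ → ℕ
  g : ∀ n, Fin (v n) → EuclideanSpace ℝ (Fin (u n))
  u_lt_v : ∀ n, u n < v n
  v_lt_u : ∀ n, v n < u (n + 1)
  u_large : ∀ n, 19 * (n + 1) ^ 3 * (6 * (n + 1) + 1) ^ (∑ m ∈ Finset.range n, u m) ≤ u n
  v_large : ∀ n : ℕ, 9 * ((n : ℝ) + 1) ^ 3 * sNum p u n ≤ v n
  norm_g : ∀ n i, ‖g n i‖ = 1
  lower : ∀ n (J : Finset (Fin (v n))),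
    (J.card : ℝ) ≤ max (sPrev p u n + 1) (19 * ((n : ℝ) + 1) ^ 2) → ∀ a : Fin (v n) → ℝ,
      1 / 2 * ∑ i ∈ J, a i ^ 2 ≤ ‖∑ i ∈ J, a i • g n i‖ ^ 2
  upper : ∀ n (J : Finset (Fin (v n))),
    (J.card : ℝ) ≤ max (sPrev p u n + 1) (19 * ((n : ℝ) + 1) ^ 2) → ∀ a : Fin (v n) → ℝ,
      ‖∑ i ∈ J, a i • g n i‖ ^ 2 ≤ 2 * ∑ i ∈ J, a i ^ 2
  bessel : ∀ n (J : Finset (Fin (v n))),
    (J.card : ℝ) ≤ max (sPrev p u n + 1) (19 * ((n : ℝ) + 1) ^ 2) →
      ∀ x : EuclideanSpace ℝ (Fin (u n)), ∑ i ∈ J, (inner ℝ x (g n i)) ^ 2 ≤ 2 * ‖x‖ ^ 2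

/-- The block `ℓ₂^(u n)`. -/
abbrev E (u : ℕ → ℕ) (n : ℕ) : Type := EuclideanSpace ℝ (Fin (u n))

/-- `U`, the `ℓ_p`-sum of the spaces `ℓ₂^(u n)`. -/
abbrev USp (u : ℕ → ℕ) (p : ℝ≥0∞) : Type := lp (E u) p

/-- `W`, the `ℓ_∞`-sum of the spaces `ℓ_∞^(v n)`. -/
abbrev WSp (v : ℕ → ℕ) : Type := lp (fun n => (Fin (v n) → ℝ)) ∞

/-- The `c₀`-sum of the normed spaces `F n`: the sequences with norms tending to `0`, with the
supremum norm. -/
def c0Sub (F : ℕ → Type) [∀ n, NormedAddCommGroup (F n)] [∀ n, NormedSpace ℝ (F n)] :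
    Submodule ℝ (lp F ∞) where
  carrier := {w | Tendsto (fun n => ‖w n‖) atTop (𝓝 0)}
  add_mem' := by
    intro a b ha hb
    have h := ha.add hb
    rw [add_zero] at h
    refine squeeze_zero (fun n => norm_nonneg _) (fun n => ?_) h
    rw [lp.coeFn_add]
    exact norm_add_le _ _
  zero_mem' := by
    simp only [Set.mem_ofPred_eq, lp.coeFn_zero, Pi.zero_apply, norm_zero]
    exact tendsto_const_nhds
  smul_mem' := by
    intro c a ha
    have h := ha.const_mul ‖c‖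
    rw [mul_zero] at h
    refine squeeze_zero (fun n => norm_nonneg _) (fun n => ?_) h
    rw [lp.coeFn_smul, Pi.smul_apply, norm_smul]

/-- `V`, the `c₀`-sum of the spaces `ℓ_∞^(v n)`. -/
abbrev VSp (v : ℕ → ℕ) : Type := c0Sub (fun n => (Fin (v n) → ℝ))

/-- `U_*` in the case `p = 1`, the `c₀`-sum of the spaces `ℓ₂^(u n)`. -/
abbrev USt1 (u : ℕ → ℕ) : Type := c0Sub (E u)

/-- `V*`, the `ℓ₁`-sum of the spaces `ℓ₁^(v n)`. -/
abbrev YSp (v : ℕ → ℕ) : Type := lp (fun n => PiLp 1 (fun _ : Fin (v n) => ℝ)) 1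

/-- Position of the coordinate `t` of the block `n` when the coordinates of the blocks (of
dimensions `w 0, w 1, …`) are listed consecutively. -/
def pos (w : ℕ → ℕ) (n : ℕ) (t : Fin (w n)) : ℕ := ∑ m ∈ Finset.range n, w m + t

end Pool.Agent.Lib.MP_537232_an
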