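import Pool.Agent.Lib.MP_537232_an.Pos

set_option autoImplicit false

/-!
# Hilbert space lemmas
-/

open scoped ENNReal Topology
open Filter

namespace Pool.Agent.Lib.MP_537232_an

section Proj

variable {H : Type*} [NormedAddCommGroup H] [InnerProductSpace ℝ H] [CompleteSpace H]

/-- The projection `Q_L` of an increasing sequence of finite dimensional subspaces. -/
lemma exists_proj (K : ℕ → Submodule ℝ H) (hK : Monotone K) [∀ n, FiniteDimensional ℝ (K n)]
    (L : Set ℕ) :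
    ∃ Q : H →L[ℝ] H, ‖Q‖ ≤ 1 ∧ (∀ x y, inner ℝ (Q x) y = inner ℝ x (Q y)) ∧
      ∀ n, ∀ η ∈ K (n + 1), (n ∈ L → ‖Q η - η‖ ≤ ‖(K n).starProjection η‖) ∧
        (n ∉ L → ‖Q η‖ ≤ ‖(K n).starProjection η‖) := by
  set N : Submodule ℝ H := (⨆ n ∈ L, (K (n + 1) ⊓ (K n)ᗮ)).topologicalClosure with hN
  have hNc : IsClosed (N : Set H) := Submodule.isClosed_topologicalClosure _
  have : CompleteSpace N := hNc.completeSpace_coe
  have hmem : ∀ n ∈ L, K (n + 1) ⊓ (K n)ᗮ ≤ N := by
    intro n hn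
    refine le_trans ?_ (Submodule.le_topologicalClosure _)
    exact le_iSup₂_of_le n hn le_rfl
  have hort : ∀ m n, m < n → ∀ x ∈ K (m + 1) ⊓ (K m)ᗮ, ∀ y ∈ K (n + 1) ⊓ (K n)ᗮ,
      inner ℝ x y = 0 := by
    intro m n hmn x hx y hy
    exact (Submodule.mem_orthogonal _ _).1 hy.2 x (hK (Nat.succ_le_of_lt hmn) hx.1)
  have hperp : ∀ n, n ∉ L → ∀ y ∈ K (n + 1) ⊓ (K n)ᗮ, y ∈ Nᗮ := by
    intro n hn y hy
    rw [hN, Submodule.orthogonal_closure]
    rw [Submodule.mem_orthogonal]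
    intro x hx
    have hle : (⨆ n ∈ L, (K (n + 1) ⊓ (K n)ᗮ)) ≤ (ℝ ∙ y)ᗮ := by
      refine iSup₂_le fun m hm z hz => ?_
      rw [Submodule.mem_orthogonal_singleton_iff_inner_left]
      have hmn : m ≠ n := fun h => hn (h ▸ hm)
      rcases lt_or_gt_of_ne hmn with h | h
      · exact hort m n h z hz y hy
      · rw [real_inner_comm]
        exact hort n m h y hy z hz
    exact (Submodule.mem_orthogonal_singleton_iff_inner_left).1 (hle hx)
  refine ⟨N.starProjection, N.starProjection_norm_le,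
    fun x y => N.inner_starProjection_left_eq_right x y, ?_⟩
  intro n η hη
  set P := (K n).starProjection with hP
  have hd : η - P η ∈ K (n + 1) ⊓ (K n)ᗮ := by
    refine ⟨(K (n + 1)).sub_mem hη (hK (Nat.le_succ n) ((K n).starProjection_apply_mem η)), ?_⟩
    exact (K n).sub_starProjection_mem_orthogonal η
  constructor
  · intro hn
    have h1 : N.starProjection (η - P η) = η - P η :=
      N.starProjection_eq_self_iff.2 (hmem n hn hd)
    rw [map_sub] at h1
    have h2 : N.starProjection η - η = N.starProjection (P η) - P η := by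
      rw [sub_eq_iff_eq_add] at h1
      rw [h1]
      abel
    rw [h2, ← norm_neg, neg_sub]
    have h3 : P η - N.starProjection (P η) = Nᗮ.starProjection (P η) := by
      rw [N.starProjection_orthogonal]
      simp
    rw [h3]
    exact Nᗮ.norm_starProjection_apply_le (P η)
  · intro hn
    have h1 : N.starProjection (η - P η) = 0 :=
      N.starProjection_apply_eq_zero_iff.2 (hperp n hn _ hd)
    rw [map_sub, sub_eq_zero] at h1
    rw [h1]
    exact N.norm_starProjection_apply_le (P η)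

omit [CompleteSpace H] in
/-- Counting. -/
lemma count_le (K : Submodule ℝ H) [FiniteDimensional ℝ K] {ι : Type*} (J : Finset ι)
    (η : ι → H) (c : ℝ) (hb : ∀ x : H, ∑ i ∈ J, (inner ℝ (η i) x) ^ 2 ≤ c * ‖x‖ ^ 2) :
    ∑ i ∈ J, ‖K.starProjection (η i)‖ ^ 2 ≤ c * (Module.finrank ℝ K : ℝ) := by
  set b := stdOrthonormalBasis ℝ K with hbdef
  have h1 : ∀ y : H, ‖K.starProjection y‖ ^ 2 = ∑ k, (inner ℝ y (b k : H)) ^ 2 := by
    intro y
    have h2 : ‖K.starProjection y‖ ^ 2 = ‖K.orthogonalProjectionOnto y‖ ^ 2 := by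
      rw [K.starProjection_apply]
      rfl
    rw [h2, ← b.sum_sq_norm_inner_right (K.orthogonalProjectionOnto y)]
    refine Finset.sum_congr rfl fun k _ => ?_
    rw [Real.norm_eq_abs, sq_abs]
    congr 1
    have h3 : inner ℝ (b k) (K.orthogonalProjectionOnto y) =
        inner ℝ ((b k : K) : H) (K.starProjection y) := rfl
    rw [h3, ← K.inner_starProjection_left_eq_right,
      K.starProjection_eq_self_iff.2 (b k).2, real_inner_comm]
  calc ∑ i ∈ J, ‖K.starProjection (η i)‖ ^ 2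
      = ∑ i ∈ J, ∑ k, (inner ℝ (η i) (b k : H)) ^ 2 := Finset.sum_congr rfl fun i _ => h1 _
    _ = ∑ k, ∑ i ∈ J, (inner ℝ (η i) (b k : H)) ^ 2 := Finset.sum_comm
    _ ≤ ∑ _k : Fin (Module.finrank ℝ K), c := by
        refine Finset.sum_le_sum fun k _ => ?_
        have h2 := hb (b k : H)
        have h3 : ‖((b k : K) : H)‖ = 1 := by
          have := b.orthonormal.1 k
          exact this
        rw [h3] at h2
        simpa using h2
    _ = c * (Module.finrank ℝ K : ℝ) := by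
        rw [Finset.sum_const, Finset.card_univ, Fintype.card_fin, nsmul_eq_mul, mul_comm]

end Proj

lemma card_le_of_count {ι : Type*} (S : Finset ι) {x b : ℝ} (hx0 : 0 ≤ x) (hx : x + 1 ≤ b)
    (h : ∀ J : Finset ι, J ⊆ S → (J.card : ℝ) ≤ b → (J.card : ℝ) ≤ x) : (S.card : ℝ) ≤ b := by
  by_contra hS
  push Not at hS
  have h1 : ((⌊x⌋₊ + 1 : ℕ) : ℝ) ≤ b := by
    push_cast
    linarith [Nat.floor_le hx0]
  have h2 : ⌊x⌋₊ + 1 ≤ S.card := by
    have : ((⌊x⌋₊ + 1 : ℕ) : ℝ) ≤ (S.card : ℝ) := h1.trans hS.le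
    exact_mod_cast this
  obtain ⟨J, hJ, hJc⟩ := Finset.exists_subset_card_eq h2
  have h3 := h J hJ (by rw [hJc]; exact h1)
  rw [hJc] at h3
  push_cast at h3
  linarith [Nat.lt_floor_add_one x]

/-- The set of the vectors with a large projection is small. -/
lemma card_large_le {H : Type*} [NormedAddCommGroup H] [InnerProductSpace ℝ H] [CompleteSpace H]
    (K : Submodule ℝ H) [FiniteDimensional ℝ K] {ι : Type*} [Fintype ι] [DecidableEq ι]
    (η : ι → H) {c b ε : ℝ} (hc : 0 ≤ c) (hε : 0 < ε)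
    (hb : ∀ J : Finset ι, (J.card : ℝ) ≤ b → ∀ x : H, ∑ i ∈ J, (inner ℝ (η i) x) ^ 2 ≤ c * ‖x‖ ^ 2)
    (hx : c / ε ^ 2 * (Module.finrank ℝ K : ℝ) + 1 ≤ b) :
    (((Finset.univ : Finset ι).filter fun i => ε ≤ ‖K.starProjection (η i)‖).card : ℝ) ≤ b := by
  refine card_le_of_count _ (by positivity) hx ?_
  intro J hJ hJb
  have h1 := count_le K J η c (hb J hJb)
  have h2 : (J.card : ℝ) * ε ^ 2 ≤ ∑ i ∈ J, ‖K.starProjection (η i)‖ ^ 2 := by
    rw [← nsmul_eq_mul, ← Finset.sum_const]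
    refine Finset.sum_le_sum fun i hi => ?_
    have h3 := (Finset.mem_filter.1 (hJ hi)).2
    gcongr
  have h4 : (J.card : ℝ) * ε ^ 2 ≤ c * (Module.finrank ℝ K : ℝ) := h2.trans h1
  rw [div_mul_eq_mul_div, le_div_iff₀ (by positivity)]
  exact h4

end Pool.Agent.Lib.MP_537232_an
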