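import Pool.Agent.Lib.MP_537232_an.Defs

set_option autoImplicit false

/-!
# Closed ideals: general facts and the two abstract meet theorems
-/

open scoped ENNReal Topology
open Filter

namespace Pool.Agent.Lib.MP_537232_an

variable {X Y : Type} [NormedAddCommGroup X] [NormedSpace ℝ X]
  [NormedAddCommGroup Y] [NormedSpace ℝ Y]

lemma isClosedIdeal_idealGen (T : X →L[ℝ] Y) : IsClosedIdeal (idealGen T) := by
  constructor
  · have h : ((idealGen T : Submodule ℝ (X →L[ℝ] Y)) : Set (X →L[ℝ] Y)) =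
        ⋂ J ∈ {J : Submodule ℝ (X →L[ℝ] Y) | IsClosedIdeal J ∧ T ∈ J},
          (J : Set (X →L[ℝ] Y)) := by
      unfold idealGen
      rw [Submodule.coe_sInf]
    rw [h]
    exact isClosed_biInter fun J hJ => hJ.1.closed
  · intro A S B hS
    unfold idealGen at hS ⊢
    rw [Submodule.mem_sInf] at hS ⊢
    exact fun J hJ => hJ.1.comp A S B (hS J hJ)

lemma mem_idealGen (T : X →L[ℝ] Y) : T ∈ idealGen T := by
  unfold idealGen
  rw [Submodule.mem_sInf]
  exact fun J hJ => hJ.2

lemma idealGen_le {T : X →L[ℝ] Y} {K : Submodule ℝ (X →L[ℝ] Y)} (hK : IsClosedIdeal K)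
    (hT : T ∈ K) : idealGen T ≤ K :=
  sInf_le ⟨hK, hT⟩

lemma IsClosedIdeal.left {K : Submodule ℝ (X →L[ℝ] Y)} (hK : IsClosedIdeal K) (A : Y →L[ℝ] Y)
    {T : X →L[ℝ] Y} (hT : T ∈ K) : A.comp T ∈ K := by
  have h := hK.comp A T (ContinuousLinearMap.id ℝ X) hT
  rwa [ContinuousLinearMap.comp_id] at h

lemma IsClosedIdeal.right {K : Submodule ℝ (X →L[ℝ] Y)} (hK : IsClosedIdeal K) (B : X →L[ℝ] X)
    {T : X →L[ℝ] Y} (hT : T ∈ K) : T.comp B ∈ K := by
  have h := hK.comp (ContinuousLinearMap.id ℝ Y) T B hT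
  rwa [ContinuousLinearMap.id_comp] at h

/-- A closed ideal contains every operator which is approximated by its elements. -/
lemma IsClosedIdeal.mem_of_approx {K : Submodule ℝ (X →L[ℝ] Y)} (hK : IsClosedIdeal K)
    {T : X →L[ℝ] Y} (h : ∀ ε : ℝ, 0 < ε → ∃ S ∈ K, ‖T - S‖ ≤ ε) : T ∈ K := by
  have : T ∈ closure (K : Set (X →L[ℝ] Y)) := by
    rw [Metric.mem_closure_iff]
    intro ε hε
    obtain ⟨S, hS, hTS⟩ := h (ε / 2) (half_pos hε)
    refine ⟨S, hS, ?_⟩
    rw [dist_eq_norm]
    linarith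
  rwa [hK.closed.closure_eq] at this

/-- The elements of the ideal generated by `T`, up to `ε`. -/
lemma exists_approx {T R : X →L[ℝ] Y} (hR : R ∈ idealGen T) {ε : ℝ} (hε : 0 < ε) :
    ∃ l : List ((Y →L[ℝ] Y) × (X →L[ℝ] X)),
      ‖R - (l.map fun q => (q.1.comp T).comp q.2).sum‖ ≤ ε := by
  set s : Set (X →L[ℝ] Y) := {S | ∃ A : Y →L[ℝ] Y, ∃ B : X →L[ℝ] X, S = (A.comp T).comp B}
    with hs
  set K : Submodule ℝ (X →L[ℝ] Y) := (Submodule.span ℝ s).topologicalClosure with hKdef
  have hK : IsClosedIdeal K := by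
    constructor
    · exact Submodule.isClosed_topologicalClosure _
    · intro A S B hS
      let Φ : (X →L[ℝ] Y) →L[ℝ] (X →L[ℝ] Y) :=
        LinearMap.mkContinuous
          { toFun := fun S => (A.comp S).comp B
            map_add' := fun S S' => by ext x; simp
            map_smul' := fun c S => by ext x; simp } (‖A‖ * ‖B‖) (by
          intro S
          calc ‖(A.comp S).comp B‖ ≤ ‖A.comp S‖ * ‖B‖ := ContinuousLinearMap.opNorm_comp_le _ _
            _ ≤ ‖A‖ * ‖S‖ * ‖B‖ := by
                gcongr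
                exact ContinuousLinearMap.opNorm_comp_le _ _
            _ = ‖A‖ * ‖B‖ * ‖S‖ := by ring)
      have hΦ : ∀ S, Φ S = (A.comp S).comp B := fun S => rfl
      have h1 : ∀ S ∈ Submodule.span ℝ s, Φ S ∈ Submodule.span ℝ s := by
        intro S hS
        induction hS using Submodule.span_induction with
        | mem S hS =>
          obtain ⟨A', B', rfl⟩ := hS
          refine Submodule.subset_span ⟨A.comp A', B'.comp B, ?_⟩
          rw [hΦ]
          rfl
        | zero => rw [map_zero]; exact Submodule.zero_mem _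
        | add S S' _ _ h h' => rw [map_add]; exact Submodule.add_mem _ h h'
        | smul c S _ h => rw [map_smul]; exact Submodule.smul_mem _ _ h
      rw [← hΦ]
      have h2 : Set.MapsTo Φ (Submodule.span ℝ s : Set (X →L[ℝ] Y))
        (Submodule.span ℝ s : Set (X →L[ℝ] Y)) := h1
      have h3 := h2.closure Φ.continuous
      have h4 : S ∈ closure (Submodule.span ℝ s : Set (X →L[ℝ] Y)) := by
        rw [hKdef, ← SetLike.mem_coe, Submodule.topologicalClosure_coe] at hS
        exact hS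
      have h5 := h3 h4
      rw [hKdef, ← SetLike.mem_coe, Submodule.topologicalClosure_coe]
      exact h5
  have hT : T ∈ K := by
    refine Submodule.le_topologicalClosure _ (Submodule.subset_span ?_)
    exact ⟨ContinuousLinearMap.id ℝ Y, ContinuousLinearMap.id ℝ X, by
      rw [ContinuousLinearMap.comp_id, ContinuousLinearMap.id_comp]⟩
  have hRK : R ∈ closure (Submodule.span ℝ s : Set (X →L[ℝ] Y)) := by
    have := idealGen_le hK hT hR
    rw [hKdef, ← SetLike.mem_coe, Submodule.topologicalClosure_coe] at this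
    exact this
  rw [Metric.mem_closure_iff] at hRK
  obtain ⟨S, hS, hRS⟩ := hRK ε hε
  have h6 : ∀ S ∈ Submodule.span ℝ s, ∃ l : List ((Y →L[ℝ] Y) × (X →L[ℝ] X)),
      S = (l.map fun q => (q.1.comp T).comp q.2).sum := by
    intro S hS
    induction hS using Submodule.span_induction with
    | mem S hS =>
      obtain ⟨A', B', rfl⟩ := hS
      exact ⟨[(A', B')], by simp⟩
    | zero => exact ⟨[], by simp⟩
    | add S S' _ _ h h' =>
      obtain ⟨l, rfl⟩ := h
      obtain ⟨l', rfl⟩ := h'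
      exact ⟨l ++ l', by simp⟩
    | smul c S _ h =>
      obtain ⟨l, rfl⟩ := h
      refine ⟨l.map fun q => (c • q.1, q.2), ?_⟩
      rw [List.smul_sum, List.map_map, List.map_map]
      congr 1
  obtain ⟨l, rfl⟩ := h6 S hS
  refine ⟨l, ?_⟩
  rw [dist_eq_norm] at hRS
  exact hRS.le

/-- Reduction of the meet theorem to infinite sets. -/
lemma meet_aux (T : Set ℕ → (X →L[ℝ] Y)) (I : X →L[ℝ] Y)
    (h1 : ∀ M M' : Set ℕ, M' ⊆ M → T M' ∈ idealGen (T M))
    (h2 : ∀ M : Set ℕ, M.Infinite → I ∈ idealGen (T M))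
    (h3 : ∀ M : Set ℕ, M.Finite → T M ∈ idealGen I) (M N : Set ℕ)
    (h4 : ∀ K : Submodule ℝ (X →L[ℝ] Y), IsClosedIdeal K → idealGen I ≤ K → T (M ∩ N) ∈ K →
      idealGen (T M) ⊓ idealGen (T N) ≤ K) :
    phi T I (M ∩ N) = phi T I M ⊓ phi T I N := by
  have hmono : ∀ M M' : Set ℕ, M' ⊆ M → phi T I M' ≤ phi T I M := by
    intro M M' hM
    unfold phi
    by_cases h' : M'.Infinite
    · rw [if_pos h', if_pos (h'.mono hM)]
      exact idealGen_le (isClosedIdeal_idealGen _) (h1 M M' hM)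
    · rw [if_neg h']
      by_cases h : M.Infinite
      · rw [if_pos h]
        exact idealGen_le (isClosedIdeal_idealGen _) (h2 M h)
      · rw [if_neg h]
  refine le_antisymm (le_inf (hmono _ _ Set.inter_subset_left) (hmono _ _ Set.inter_subset_right)) ?_
  by_cases hM : M.Infinite
  swap
  · refine inf_le_left.trans ?_
    have : ¬ (M ∩ N).Infinite := fun h => hM (h.mono Set.inter_subset_left)
    unfold phi
    rw [if_neg hM, if_neg this]
  by_cases hN : N.Infinite
  swap
  · refine inf_le_right.trans ?_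
    have : ¬ (M ∩ N).Infinite := fun h => hN (h.mono Set.inter_subset_right)
    unfold phi
    rw [if_neg hN, if_neg this]
  have hK : IsClosedIdeal (phi T I (M ∩ N)) := by
    unfold phi
    split_ifs <;> exact isClosedIdeal_idealGen _
  have hIK : idealGen I ≤ phi T I (M ∩ N) := by
    unfold phi
    split_ifs with h
    · exact idealGen_le (isClosedIdeal_idealGen _) (h2 _ h)
    · exact le_rfl
  have hTK : T (M ∩ N) ∈ phi T I (M ∩ N) := by
    unfold phi
    split_ifs with h
    · exact mem_idealGen _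
    · exact h3 _ (Set.not_infinite.1 h)
  have h5 := h4 _ hK hIK hTK
  have h6 : phi T I M ⊓ phi T I N = idealGen (T M) ⊓ idealGen (T N) := by
    unfold phi
    rw [if_pos hM, if_pos hN]
  rw [h6]
  exact h5

/-- Abstract meet theorem, multiplication from the right. -/
theorem meet_right (T : Set ℕ → (X →L[ℝ] Y)) (I : X →L[ℝ] Y)
    (h1 : ∀ M M' : Set ℕ, M' ⊆ M → T M' ∈ idealGen (T M))
    (h2 : ∀ M : Set ℕ, M.Infinite → I ∈ idealGen (T M))
    (h3 : ∀ M : Set ℕ, M.Finite → T M ∈ idealGen I)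
    (h4 : ∀ (l : List (X →L[ℝ] X)) (L : Set ℕ), ∃ Q : X →L[ℝ] X, ‖Q‖ ≤ 1 ∧
      ∀ B ∈ l, ∀ M : Set ℕ, ((T M).comp B).comp Q - (T (M ∩ L)).comp B ∈ idealGen I)
    (M N : Set ℕ) : phi T I (M ∩ N) = phi T I M ⊓ phi T I N := by
  refine meet_aux T I h1 h2 h3 M N fun K hK hIK hTK => ?_
  intro R hR
  rw [Submodule.mem_inf] at hR
  refine hK.mem_of_approx fun ε hε => ?_
  obtain ⟨lM, hlM⟩ := exists_approx hR.1 (ε := ε / 3) (by positivity)
  obtain ⟨lN, hlN⟩ := exists_approx hR.2 (ε := ε / 3) (by positivity)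
  obtain ⟨Q, hQ, hQB⟩ := h4 (lM.map Prod.snd ++ lN.map Prod.snd) N
  set SM := (lM.map fun q => (q.1.comp (T M)).comp q.2).sum with hSM
  set SN := (lN.map fun q => (q.1.comp (T N)).comp q.2).sum with hSN
  have hcomp : ∀ (l : List ((Y →L[ℝ] Y) × (X →L[ℝ] X))) (S : X →L[ℝ] Y),
      ((l.map fun q : (Y →L[ℝ] Y) × (X →L[ℝ] X) => (q.1.comp S).comp q.2).sum).comp Q =
        (l.map fun q : (Y →L[ℝ] Y) × (X →L[ℝ] X) => ((q.1.comp S).comp q.2).comp Q).sum := by
    intro l S
    induction l with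
    | nil => simp
    | cons q l ih =>
      rw [List.map_cons, List.sum_cons, List.map_cons, List.sum_cons, ← ih,
        ContinuousLinearMap.add_comp]
  have hSMQ : SM.comp Q ∈ K := by
    rw [hSM, hcomp]
    refine list_sum_mem ?_
    intro S hS
    obtain ⟨q, hq, rfl⟩ := List.mem_map.1 hS
    have h5 := hQB q.2 (List.mem_append_left _ (List.mem_map_of_mem hq)) M
    have h6 : ((q.1.comp (T M)).comp q.2).comp Q =
        q.1.comp (((T M).comp q.2).comp Q - (T (M ∩ N)).comp q.2) +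
          (q.1.comp (T (M ∩ N))).comp q.2 := by
      ext x; simp
    rw [h6]
    exact K.add_mem (hK.left _ (hIK h5)) (hK.comp _ _ _ hTK)
  have hSNQ : SN - SN.comp Q ∈ K := by
    rw [hSN, hcomp]
    have h7 : ∀ l : List ((Y →L[ℝ] Y) × (X →L[ℝ] X)), (∀ q ∈ l, q ∈ lN) →
        (l.map fun q => (q.1.comp (T N)).comp q.2).sum -
          (l.map fun q => ((q.1.comp (T N)).comp q.2).comp Q).sum ∈ K := by
      intro l
      induction l with
      | nil => intro _; simp
      | cons q l ih =>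
        intro hl
        rw [List.map_cons, List.sum_cons, List.map_cons, List.sum_cons]
        have h5 := hQB q.2 (List.mem_append_right _
          (List.mem_map_of_mem (hl q List.mem_cons_self))) N
        rw [Set.inter_self] at h5
        have h6 : (q.1.comp (T N)).comp q.2 - ((q.1.comp (T N)).comp q.2).comp Q =
            - q.1.comp (((T N).comp q.2).comp Q - (T N).comp q.2) := by
          ext x; simp
        have h8 := ih fun q' hq' => hl q' (List.mem_cons_of_mem _ hq')
        have h9 : (q.1.comp (T N)).comp q.2 - ((q.1.comp (T N)).comp q.2).comp Q ∈ K := by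
          rw [h6]
          exact K.neg_mem (hK.left _ (hIK h5))
        have h10 := K.add_mem h9 h8
        convert h10 using 1
        abel
    exact h7 lN fun q hq => hq
  refine ⟨SM.comp Q + (SN - SN.comp Q), K.add_mem hSMQ hSNQ, ?_⟩
  have h11 : R - (SM.comp Q + (SN - SN.comp Q)) =
      (R - SM).comp Q + ((R - SN) - (R - SN).comp Q) := by
    ext x; simp; abel
  rw [h11]
  have h12 : ‖(R - SM).comp Q‖ ≤ ε / 3 := by
    refine (ContinuousLinearMap.opNorm_comp_le _ _).trans ?_
    calc ‖R - SM‖ * ‖Q‖ ≤ ε / 3 * 1 := by gcongr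
      _ = ε / 3 := mul_one _
  have h13 : ‖(R - SN).comp Q‖ ≤ ε / 3 := by
    refine (ContinuousLinearMap.opNorm_comp_le _ _).trans ?_
    calc ‖R - SN‖ * ‖Q‖ ≤ ε / 3 * 1 := by gcongr
      _ = ε / 3 := mul_one _
  have h14 := norm_add_le ((R - SM).comp Q) ((R - SN) - (R - SN).comp Q)
  have h15 := norm_sub_le (R - SN) ((R - SN).comp Q)
  linarith

/-- Abstract meet theorem, multiplication from the left. -/
theorem meet_left (T : Set ℕ → (X →L[ℝ] Y)) (I : X →L[ℝ] Y)
    (h1 : ∀ M M' : Set ℕ, M' ⊆ M → T M' ∈ idealGen (T M))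
    (h2 : ∀ M : Set ℕ, M.Infinite → I ∈ idealGen (T M))
    (h3 : ∀ M : Set ℕ, M.Finite → T M ∈ idealGen I)
    (h4 : ∀ (l : List (Y →L[ℝ] Y)) (L : Set ℕ), ∃ Q : Y →L[ℝ] Y, ‖Q‖ ≤ 1 ∧
      ∀ A ∈ l, ∀ M : Set ℕ, Q.comp (A.comp (T M)) - A.comp (T (M ∩ L)) ∈ idealGen I)
    (M N : Set ℕ) : phi T I (M ∩ N) = phi T I M ⊓ phi T I N := by
  refine meet_aux T I h1 h2 h3 M N fun K hK hIK hTK => ?_
  intro R hR
  rw [Submodule.mem_inf] at hR
  refine hK.mem_of_approx fun ε hε => ?_
  obtain ⟨lM, hlM⟩ := exists_approx hR.1 (ε := ε / 3) (by positivity)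
  obtain ⟨lN, hlN⟩ := exists_approx hR.2 (ε := ε / 3) (by positivity)
  obtain ⟨Q, hQ, hQA⟩ := h4 (lM.map Prod.fst ++ lN.map Prod.fst) N
  set SM := (lM.map fun q => (q.1.comp (T M)).comp q.2).sum with hSM
  set SN := (lN.map fun q => (q.1.comp (T N)).comp q.2).sum with hSN
  have hcomp : ∀ (l : List ((Y →L[ℝ] Y) × (X →L[ℝ] X))) (S : X →L[ℝ] Y),
      Q.comp ((l.map fun q : (Y →L[ℝ] Y) × (X →L[ℝ] X) => (q.1.comp S).comp q.2).sum) =
        (l.map fun q : (Y →L[ℝ] Y) × (X →L[ℝ] X) => Q.comp ((q.1.comp S).comp q.2)).sum := by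
    intro l S
    induction l with
    | nil => simp
    | cons q l ih =>
      rw [List.map_cons, List.sum_cons, List.map_cons, List.sum_cons, ← ih,
        ContinuousLinearMap.comp_add]
  have hSMQ : Q.comp SM ∈ K := by
    rw [hSM, hcomp]
    refine list_sum_mem ?_
    intro S hS
    obtain ⟨q, hq, rfl⟩ := List.mem_map.1 hS
    have h5 := hQA q.1 (List.mem_append_left _ (List.mem_map_of_mem hq)) M
    have h6 : Q.comp ((q.1.comp (T M)).comp q.2) =
        (Q.comp (q.1.comp (T M)) - q.1.comp (T (M ∩ N))).comp q.2 +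
          (q.1.comp (T (M ∩ N))).comp q.2 := by
      ext x; simp
    rw [h6]
    exact K.add_mem (hK.right _ (hIK h5)) (hK.comp _ _ _ hTK)
  have hSNQ : SN - Q.comp SN ∈ K := by
    rw [hSN, hcomp]
    have h7 : ∀ l : List ((Y →L[ℝ] Y) × (X →L[ℝ] X)), (∀ q ∈ l, q ∈ lN) →
        (l.map fun q => (q.1.comp (T N)).comp q.2).sum -
          (l.map fun q => Q.comp ((q.1.comp (T N)).comp q.2)).sum ∈ K := by
      intro l
      induction l with
      | nil => intro _; simp
      | cons q l ih =>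
        intro hl
        rw [List.map_cons, List.sum_cons, List.map_cons, List.sum_cons]
        have h5 := hQA q.1 (List.mem_append_right _
          (List.mem_map_of_mem (hl q List.mem_cons_self))) N
        rw [Set.inter_self] at h5
        have h6 : (q.1.comp (T N)).comp q.2 - Q.comp ((q.1.comp (T N)).comp q.2) =
            - (Q.comp (q.1.comp (T N)) - q.1.comp (T N)).comp q.2 := by
          ext x; simp
        have h8 := ih fun q' hq' => hl q' (List.mem_cons_of_mem _ hq')
        have h9 : (q.1.comp (T N)).comp q.2 - Q.comp ((q.1.comp (T N)).comp q.2) ∈ K := by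
          rw [h6]
          exact K.neg_mem (hK.right _ (hIK h5))
        have h10 := K.add_mem h9 h8
        convert h10 using 1
        abel
    exact h7 lN fun q hq => hq
  refine ⟨Q.comp SM + (SN - Q.comp SN), K.add_mem hSMQ hSNQ, ?_⟩
  have h11 : R - (Q.comp SM + (SN - Q.comp SN)) =
      Q.comp (R - SM) + ((R - SN) - Q.comp (R - SN)) := by
    ext x; simp; abel
  rw [h11]
  have h12 : ‖Q.comp (R - SM)‖ ≤ ε / 3 := by
    refine (ContinuousLinearMap.opNorm_comp_le _ _).trans ?_
    calc ‖Q‖ * ‖R - SM‖ ≤ 1 * (ε / 3) := by gcongr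
      _ = ε / 3 := one_mul _
  have h13 : ‖Q.comp (R - SN)‖ ≤ ε / 3 := by
    refine (ContinuousLinearMap.opNorm_comp_le _ _).trans ?_
    calc ‖Q‖ * ‖R - SN‖ ≤ 1 * (ε / 3) := by gcongr
      _ = ε / 3 := one_mul _
  have h14 := norm_add_le (Q.comp (R - SM)) ((R - SN) - Q.comp (R - SN))
  have h15 := norm_sub_le (R - SN) (Q.comp (R - SN))
  linarith

end Pool.Agent.Lib.MP_537232_an
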