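import Pool.Agent.Lib.MP_537232_an.Cols

set_option autoImplicit false

/-!
# The key property for operators from `V*` to `U_*`
-/

open scoped ENNReal Topology
open Filter

namespace Pool.Agent.Lib.MP_537232_an

variable {p : ℝ≥0∞} (P : Params p)
  {X : Type} [NormedAddCommGroup X] [NormedSpace ℝ X]
  {Λ : Type} {H : Λ → Type} [∀ l, NormedAddCommGroup (H l)] [∀ l, InnerProductSpace ℝ (H l)]
  (hX : ColSpace P.u X Λ H)

open Classical in
/-- combinations of small subfamilies with coefficients from the next block -/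
lemma exists_placeY (J : ∀ n, Finset (Fin (P.v n))) (hJ : ∀ n, P.Small n (J n)) :
    ∃ S : X →L[ℝ] X, ‖S‖ ≤ 2 ∧ (∀ y, S (hX.ι 0 y) = 0) ∧
      ∀ n (t : Fin (P.u (n + 1))), S (hX.ι (n + 1) (EuclideanSpace.single t 1)) =
        if h : (t : ℕ) < P.v n then
          (if (⟨t, h⟩ : Fin (P.v n)) ∈ J n then hX.ι n (P.g n ⟨t, h⟩) else 0) else 0 := by
  have hR : ∀ n, ∃ R : E P.u (n + 1) →L[ℝ] E P.u n, ‖R‖ ≤ 2 ∧ ∀ t : Fin (P.u (n + 1)),
      R (EuclideanSpace.single t 1) =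
        if h : (t : ℕ) < P.v n then
          (if (⟨t, h⟩ : Fin (P.v n)) ∈ J n then P.g n ⟨t, h⟩ else 0) else 0 := by
    intro n
    set e : Fin (P.v n) ↪ Fin (P.u (n + 1)) :=
      ⟨Fin.castLE (P.v_lt_u n).le, Fin.castLE_injective _⟩ with he
    set R₀ : E P.u (n + 1) →ₗ[ℝ] E P.u n :=
      { toFun := fun y => ∑ j ∈ J n, y (e j) • P.g n j
        map_add' := fun x y => by
          simp only [PiLp.add_apply, add_smul, Finset.sum_add_distrib]
        map_smul' := fun c x => by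
          simp only [PiLp.smul_apply, smul_eq_mul, mul_smul, Finset.smul_sum,
            RingHom.id_apply] } with hR₀
    have hnorm : ∀ y, ‖R₀ y‖ ≤ 2 * ‖y‖ := by
      intro y
      have h2 := P.upper n (J n) (hJ n) fun j => y (e j)
      have h1 : ∑ j ∈ J n, y (e j) ^ 2 ≤ ‖y‖ ^ 2 := by
        rw [EuclideanSpace.norm_sq_eq]
        have h0 : ∀ j ∈ J n, y (e j) ^ 2 = ‖y (e j)‖ ^ 2 := by
          intro j _
          rw [Real.norm_eq_abs, sq_abs]
        rw [Finset.sum_congr rfl h0, ← Finset.sum_map (J n) e fun t => ‖y t‖ ^ 2]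
        exact Finset.sum_le_sum_of_subset_of_nonneg (Finset.subset_univ _)
          fun _ _ _ => by positivity
      have h3 : ‖R₀ y‖ ^ 2 ≤ (2 * ‖y‖) ^ 2 := by
        change ‖∑ j ∈ J n, y (e j) • P.g n j‖ ^ 2 ≤ _
        nlinarith [sq_nonneg ‖y‖]
      exact (pow_le_pow_iff_left₀ (norm_nonneg _) (by positivity) two_ne_zero).1 h3
    refine ⟨LinearMap.mkContinuous R₀ 2 hnorm, LinearMap.mkContinuous_norm_le _ (by norm_num) _, ?_⟩
    intro t
    change ∑ j ∈ J n, (EuclideanSpace.single t (1 : ℝ) : E P.u (n + 1)) (e j) • P.g n j = _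
    have h5 : ∀ j, (EuclideanSpace.single t (1 : ℝ) : E P.u (n + 1)) (e j) =
        if e j = t then 1 else 0 := fun j => by
      rw [PiLp.single_apply]
    simp only [h5, ite_smul, one_smul, zero_smul]
    by_cases h : (t : ℕ) < P.v n
    · rw [dif_pos h]
      have h6 : ∀ j : Fin (P.v n), e j = t ↔ j = ⟨t, h⟩ := by
        intro j
        constructor
        · intro hj
          have h7 : ((e j : Fin (P.u (n + 1))) : ℕ) = t := by rw [hj]
          exact Fin.ext h7
        · intro hj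
          rw [hj]
          rfl
      simp only [h6]
      rw [Finset.sum_ite_eq']
    · rw [dif_neg h]
      refine Finset.sum_eq_zero fun j _ => if_neg ?_
      intro hj
      apply h
      rw [← hj]
      exact j.2
  choose R hR1 hR2 using hR
  obtain ⟨S, hS, hSa⟩ := hX.shift (fun n => n + 1) R 2 (by norm_num) hR1
    (fun k k' h _ _ => by simpa using h)
  refine ⟨S, hS, fun y => ?_, fun n t => ?_⟩
  · refine hX.ext _ _ (funext fun k => ?_)
    rw [hSa, hX.co_ι, Pi.single_eq_of_ne (Nat.succ_ne_zero k), map_zero, map_zero]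
    rfl
  · refine hX.ext _ _ (funext fun k => ?_)
    rw [hSa, hX.co_ι]
    by_cases hk : k = n
    · subst hk
      rw [Pi.single_eq_same, hR2]
      split_ifs
      · rw [hX.co_ι, Pi.single_eq_same]
      · rw [map_zero]; rfl
      · rw [map_zero]; rfl
    · have hk' : k + 1 ≠ n + 1 := fun h => hk (Nat.succ_injective h)
      rw [Pi.single_eq_of_ne hk', map_zero]
      split_ifs
      · rw [hX.co_ι, Pi.single_eq_of_ne hk]
      · rw [map_zero]; rfl
      · rw [map_zero]; rfl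

variable {I : YSp P.v →L[ℝ] X} (hI : IsIS P hX I)

include hI in
/-- writing into the next block through the formal inclusion -/
lemma exists_backY (D : X →L[ℝ] X) :
    ∃ β ∈ idealGen I, ∀ n (j : Fin (P.v n)), β (eY P.v ⟨n, j⟩) =
      D (hX.ι (n + 1) (EuclideanSpace.single ⟨j, j.2.trans (P.v_lt_u n)⟩ 1)) := by
  set τ : Ix P.v → Ix P.v := fun μ =>
    unpos P.v P.v_pos (pos P.u (μ.1 + 1) ⟨μ.2, μ.2.2.trans (P.v_lt_u μ.1)⟩) with hτ
  obtain ⟨B, _, hB⟩ := Y_shuffle (v := P.v) (fun μ => some (τ μ))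
  refine ⟨(D.comp I).comp B, (isClosedIdeal_idealGen _).comp _ _ _ (mem_idealGen _), ?_⟩
  intro n j
  change D (I (B (eY P.v ⟨n, j⟩))) = _
  rw [hB, Option.elim_some, hI]
  have h1 : P.tw (τ ⟨n, j⟩) = ⟨n + 1, ⟨j, j.2.trans (P.v_lt_u n)⟩⟩ := by
    unfold Params.tw
    rw [hτ]
    simp only
    rw [pos_unpos]
    exact unpos_pos P.u_pos ⟨n + 1, ⟨j, j.2.trans (P.v_lt_u n)⟩⟩
  rw [h1]

variable {S : Set ℕ → (YSp P.v →L[ℝ] X)} (hS : ∀ M, IsS P hX M (S M))

include hS hI in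
/-- The key property. -/
lemma KP_cols [∀ l, CompleteSpace (H l)] (hp : p = 1 ∨ p = 2) (ls : List (X →L[ℝ] X))
    (L : Set ℕ) :
    ∃ Q : X →L[ℝ] X, ‖Q‖ ≤ 1 ∧ ∀ A ∈ ls, ∀ M : Set ℕ,
      Q.comp (A.comp (S M)) - A.comp (S (M ∩ L)) ∈ idealGen I := by
  classical
  set A' : ∀ l, Fin ls.length → ∀ m, E P.u m →L[ℝ] H l := fun l i m =>
    ((hX.pr l).comp (ls.get i)).comp (hX.ι m) with hA'
  choose K hKmono hKfin hKrank hKmem' using fun l =>
    exists_levels (u := P.u) (H := H l) fun i m => ContinuousLinearMap.adjoint (A' l i m)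
  have hKmem : ∀ l i n y, A' l i n y ∈ K l (n + 1) := by
    intro l i n y
    have h := hKmem' l i n y
    rwa [ContinuousLinearMap.adjoint_adjoint] at h
  have : ∀ l n, FiniteDimensional ℝ (K l n) := hKfin
  choose Q hQ1 hQsymm hQproj using fun l => exists_proj (K l) (hKmono l) L
  obtain ⟨QQ, hQQ1, hQQ⟩ := hX.diag Q hQ1
  refine ⟨QQ, hQQ1, ?_⟩
  intro A hA M
  obtain ⟨i, rfl⟩ := List.mem_iff_get.1 hA
  set A := ls.get i with hAdef
  set η : ∀ (l : Λ) (n : ℕ), Fin (P.v n) → H l := fun l n j => A' l i n (P.g n j) with hη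
  have hηa : ∀ l n j, η l n j = hX.pr l (A (hX.ι n (P.g n j))) := fun l n j => rfl
  have hA'norm : ∀ l n, ‖A' l i n‖ ≤ ‖A‖ := by
    intro l n
    calc ‖A' l i n‖ ≤ ‖(hX.pr l).comp A‖ * ‖hX.ι n‖ := ContinuousLinearMap.opNorm_comp_le _ _
      _ ≤ (‖hX.pr l‖ * ‖A‖) * 1 := by
          gcongr
          · exact ContinuousLinearMap.opNorm_comp_le _ _
          · exact hX.ι_le n
      _ ≤ (1 * ‖A‖) * 1 := by
          gcongr
          exact hX.pr_le l
      _ = ‖A‖ := by ring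
  refine (isClosedIdeal_idealGen I).mem_of_approx fun ε hε => ?_
  obtain ⟨n₀, hn₀1, hn₀⟩ := P.exists_small hp (2 * ‖A‖ ^ 2 / ε ^ 2 * ls.length)
  have hPK : ∀ l n, ∃ J : Finset (Fin (P.v n)), P.Small n J ∧
      (n₀ ≤ n → ∀ j, j ∉ J → ‖Q l (η l n j) - (if n ∈ L then η l n j else 0)‖ ≤ ε) := by
    intro l n
    by_cases hn : n₀ ≤ n
    swap
    · exact ⟨∅, P.small_empty n, fun h => absurd h hn⟩
    refine ⟨(Finset.univ : Finset (Fin (P.v n))).filter
      fun j => ε ≤ ‖(K l n).starProjection (η l n j)‖, ?_, ?_⟩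
    · refine card_large_le (K l n) (η l n) (c := 2 * ‖A‖ ^ 2) (by positivity) hε ?_ ?_
      · intro J hJ x
        have h0 : ∀ j, inner ℝ (η l n j) x =
            inner ℝ (ContinuousLinearMap.adjoint (A' l i n) x) (P.g n j) := by
          intro j
          rw [ContinuousLinearMap.adjoint_inner_left, real_inner_comm]
        simp only [h0]
        have h1 := P.bessel n J hJ (ContinuousLinearMap.adjoint (A' l i n) x)
        have h2 : ‖ContinuousLinearMap.adjoint (A' l i n) x‖ ≤ ‖A‖ * ‖x‖ := by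
          refine ((ContinuousLinearMap.adjoint (A' l i n)).le_opNorm x).trans ?_
          rw [LinearIsometryEquiv.norm_map]
          gcongr
          exact hA'norm l n
        have h3 : ‖ContinuousLinearMap.adjoint (A' l i n) x‖ ^ 2 ≤ (‖A‖ * ‖x‖) ^ 2 := by gcongr
        calc _ ≤ 2 * ‖ContinuousLinearMap.adjoint (A' l i n) x‖ ^ 2 := h1
          _ ≤ 2 * (‖A‖ * ‖x‖) ^ 2 := by linarith
          _ = 2 * ‖A‖ ^ 2 * ‖x‖ ^ 2 := by ring
      · refine le_trans ?_ (hn₀ n hn)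
        have h1 : (Module.finrank ℝ (K l n) : ℝ) ≤
            (ls.length : ℝ) * ((∑ m ∈ Finset.range n, P.u m : ℕ) : ℝ) := by
          exact_mod_cast hKrank l n
        calc 2 * ‖A‖ ^ 2 / ε ^ 2 * (Module.finrank ℝ (K l n) : ℝ) + 1
            ≤ 2 * ‖A‖ ^ 2 / ε ^ 2 *
                ((ls.length : ℝ) * ((∑ m ∈ Finset.range n, P.u m : ℕ) : ℝ)) + 1 := by
              gcongr
          _ = 2 * ‖A‖ ^ 2 / ε ^ 2 * ls.length * ((∑ m ∈ Finset.range n, P.u m : ℕ) : ℝ) + 1 := by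
              ring
    · intro _ j hj
      rw [Finset.mem_filter, not_and] at hj
      have h1 := not_le.1 (hj (Finset.mem_univ j))
      obtain ⟨h2, h3⟩ := hQproj l n (η l n j) (hKmem l i n _)
      split_ifs with h
      · exact (h2 h).trans h1.le
      · rw [sub_zero]
        exact (h3 h).trans h1.le
  choose J hJsmall hJ using hPK
  choose Pl hPl1 hPl0 hPl using fun l => exists_placeY P hX (J l) (hJsmall l)
  obtain ⟨D, _, hD⟩ := hX.glue (fun l => (hX.pr l).comp (A.comp (Pl l))) (2 * ‖A‖)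
    (by positivity) (fun l => by
      calc ‖(hX.pr l).comp (A.comp (Pl l))‖ ≤ ‖hX.pr l‖ * ‖A.comp (Pl l)‖ :=
            ContinuousLinearMap.opNorm_comp_le _ _
        _ ≤ 1 * (‖A‖ * ‖Pl l‖) := by
            gcongr
            · exact hX.pr_le l
            · exact ContinuousLinearMap.opNorm_comp_le _ _
        _ ≤ 1 * (‖A‖ * 2) := by
            gcongr
            exact hPl1 l
        _ = 2 * ‖A‖ := by ring) (by
      intro n y
      cases n with
      | zero =>
        refine ⟨0, fun l => ?_⟩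
        change hX.pr l 0 = hX.pr l (A (Pl l (hX.ι 0 y)))
        rw [hPl0, map_zero, map_zero, map_zero]
      | succ n =>
        have hm : ∀ t : Fin (P.u (n + 1)), ∃ x' : X, ∀ l, hX.pr l x' =
            hX.pr l (A (Pl l (hX.ι (n + 1) (EuclideanSpace.single t 1)))) := by
          intro t
          by_cases h : (t : ℕ) < P.v n
          · obtain ⟨x', hx'⟩ := hX.mask {l | (⟨t, h⟩ : Fin (P.v n)) ∈ J l n}
              (A (hX.ι n (P.g n ⟨t, h⟩)))
            refine ⟨x', fun l => ?_⟩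
            rw [hPl, dif_pos h]
            by_cases hl : (⟨t, h⟩ : Fin (P.v n)) ∈ J l n
            · rw [if_pos hl]
              exact (hx' l).1 hl
            · rw [if_neg hl, map_zero, map_zero]
              exact (hx' l).2 hl
          · refine ⟨0, fun l => ?_⟩
            rw [hPl, dif_neg h]
            simp only [map_zero]
        choose x' hx' using hm
        have hy : y = ∑ t, y t • EuclideanSpace.single t (1 : ℝ) := by
          have h2 := (EuclideanSpace.basisFun (Fin (P.u (n + 1))) ℝ).sum_repr y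
          simp only [EuclideanSpace.basisFun_repr, EuclideanSpace.basisFun_apply] at h2
          exact h2.symm
        refine ⟨∑ t, y t • x' t, fun l => ?_⟩
        change hX.pr l (∑ t, y t • x' t) = hX.pr l (A (Pl l (hX.ι (n + 1) y)))
        conv_rhs => rw [hy]
        simp only [map_sum, map_smul, hx'])
  obtain ⟨β, hβI, hβ⟩ := exists_backY P hX hI D
  have hβa : ∀ l n (j : Fin (P.v n)), hX.pr l (β (eY P.v ⟨n, j⟩)) =
      if j ∈ J l n then η l n j else 0 := by
    intro l n j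
    rw [hβ, hD]
    change hX.pr l (A (Pl l (hX.ι (n + 1)
      (EuclideanSpace.single ⟨j, j.2.trans (P.v_lt_u n)⟩ 1)))) = _
    have h0 : (((⟨j, j.2.trans (P.v_lt_u n)⟩ : Fin (P.u (n + 1)))) : ℕ) < P.v n := j.2
    rw [hPl, dif_pos h0]
    by_cases hj : j ∈ J l n
    · rw [if_pos hj, if_pos (show (⟨_, h0⟩ : Fin (P.v n)) ∈ J l n from hj)]
      rfl
    · rw [if_neg hj, if_neg (show ¬ (⟨_, h0⟩ : Fin (P.v n)) ∈ J l n from hj), map_zero, map_zero]
  set br := QQ.comp (A.comp (S M)) - A.comp (S (M ∩ L)) with hbr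
  obtain ⟨π₀, _, hπ₀⟩ := exists_projY P {ν | ν.1 < n₀}
  obtain ⟨π₁, _, hπ₁⟩ := exists_projY P {ν | n₀ ≤ ν.1 ∧ ν.1 ∈ M}
  obtain ⟨π₂, _, hπ₂⟩ := exists_projY P {ν | n₀ ≤ ν.1 ∧ ν.1 ∈ M ∩ L}
  refine ⟨br.comp π₀ + (QQ.comp β).comp π₁ - β.comp π₂, ?_, ?_⟩
  · refine Submodule.sub_mem _ (Submodule.add_mem _ ?_ ?_) ?_
    · refine finite_memY P hX hI _ (n₀ := n₀) fun ν hν => ?_
      change br (π₀ (eY P.v ν)) = 0
      rw [hπ₀, if_neg (show ¬ ν ∈ {ν : Ix P.v | ν.1 < n₀} from not_lt.2 hν), map_zero]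
    · exact (isClosedIdeal_idealGen I).right _ ((isClosedIdeal_idealGen I).left _ hβI)
    · exact (isClosedIdeal_idealGen I).right _ hβI
  · refine Y_norm_le _ hε.le fun ν => ?_
    obtain ⟨n, j⟩ := ν
    have e1 : (br - (br.comp π₀ + (QQ.comp β).comp π₁ - β.comp π₂)) (eY P.v ⟨n, j⟩) =
        br (eY P.v ⟨n, j⟩) - (br (π₀ (eY P.v ⟨n, j⟩)) + QQ (β (π₁ (eY P.v ⟨n, j⟩))) -
          β (π₂ (eY P.v ⟨n, j⟩))) := rfl
    rw [e1, hπ₀, hπ₁, hπ₂]
    have ebr : br (eY P.v ⟨n, j⟩) =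
        (if n ∈ M then QQ (A (hX.ι n (P.g n j))) else 0) -
          (if n ∈ M ∩ L then A (hX.ι n (P.g n j)) else 0) := by
      have e2 : br (eY P.v ⟨n, j⟩) = QQ (A (S M (eY P.v ⟨n, j⟩))) -
          A (S (M ∩ L) (eY P.v ⟨n, j⟩)) := rfl
      rw [e2, hS, hS]
      by_cases hM : n ∈ M
      · by_cases hL : n ∈ M ∩ L
        · rw [if_pos hM, if_pos hM, if_pos hL, if_pos hL]
        · rw [if_pos hM, if_pos hM, if_neg hL, if_neg hL, map_zero]
      · have hL : n ∉ M ∩ L := fun h => hM h.1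
        rw [if_neg hM, if_neg hM, if_neg hL, if_neg hL, map_zero, map_zero]
    by_cases hn : n < n₀
    · rw [if_pos (show (⟨n, j⟩ : Ix P.v) ∈ {ν : Ix P.v | ν.1 < n₀} from hn),
        if_neg (show ¬ (⟨n, j⟩ : Ix P.v) ∈ {ν : Ix P.v | n₀ ≤ ν.1 ∧ ν.1 ∈ M} from
          fun h => absurd h.1 (not_le.2 hn)),
        if_neg (show ¬ (⟨n, j⟩ : Ix P.v) ∈ {ν : Ix P.v | n₀ ≤ ν.1 ∧ ν.1 ∈ M ∩ L} from
          fun h => absurd h.1 (not_le.2 hn))]
      rw [map_zero, map_zero, add_zero, sub_zero, sub_self, norm_zero]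
      exact hε.le
    · have hn' := not_lt.1 hn
      rw [if_neg (show ¬ (⟨n, j⟩ : Ix P.v) ∈ {ν : Ix P.v | ν.1 < n₀} from hn), map_zero, zero_add]
      by_cases hM : n ∈ M
      · rw [if_pos (show (⟨n, j⟩ : Ix P.v) ∈ {ν : Ix P.v | n₀ ≤ ν.1 ∧ ν.1 ∈ M} from ⟨hn', hM⟩),
          ebr, if_pos hM]
        refine hX.le_of _ _ hε.le fun l => ?_
        by_cases hL : n ∈ L
        · rw [if_pos (show (⟨n, j⟩ : Ix P.v) ∈ {ν : Ix P.v | n₀ ≤ ν.1 ∧ ν.1 ∈ M ∩ L} from
            ⟨hn', hM, hL⟩), if_pos (show n ∈ M ∩ L from ⟨hM, hL⟩)]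
          simp only [map_sub, hQQ, hβa]
          rw [← hηa]
          by_cases hj : j ∈ J l n
          · rw [if_pos hj, sub_self, norm_zero]
            exact hε.le
          · rw [if_neg hj, map_zero, sub_self, sub_zero]
            have h5 := hJ l n hn' j hj
            rwa [if_pos hL] at h5
        · rw [if_neg (show ¬ (⟨n, j⟩ : Ix P.v) ∈ {ν : Ix P.v | n₀ ≤ ν.1 ∧ ν.1 ∈ M ∩ L} from
            fun h => hL h.2.2), if_neg (show ¬ n ∈ M ∩ L from fun h => hL h.2)]
          simp only [map_sub, hQQ, hβa, map_zero, sub_zero]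
          rw [← hηa]
          by_cases hj : j ∈ J l n
          · rw [if_pos hj, sub_self, norm_zero]
            exact hε.le
          · rw [if_neg hj, map_zero, sub_zero]
            have h5 := hJ l n hn' j hj
            rwa [if_neg hL, sub_zero] at h5
      · rw [if_neg (show ¬ (⟨n, j⟩ : Ix P.v) ∈ {ν : Ix P.v | n₀ ≤ ν.1 ∧ ν.1 ∈ M} from
            fun h => hM h.2), ebr, if_neg hM, if_neg (show ¬ n ∈ M ∩ L from fun h => hM h.1),
          if_neg (show ¬ (⟨n, j⟩ : Ix P.v) ∈ {ν : Ix P.v | n₀ ≤ ν.1 ∧ ν.1 ∈ M ∩ L} from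
            fun h => hM h.2.1)]
        simp only [map_zero, sub_zero, norm_zero]
        exact hε.le

end Pool.Agent.Lib.MP_537232_an
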