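import Pool.Agent.Lib.MP_537232_an.Rows

set_option autoImplicit false

/-!
# The key property for operators from `U` to `V` or `W`
-/

open scoped ENNReal Topology
open Filter

namespace Pool.Agent.Lib.MP_537232_an

/-- The finite dimensional subspaces spanned by the functionals of the lower levels. -/
lemma exists_levels {u : ℕ → ℕ} {H : Type} [NormedAddCommGroup H] [InnerProductSpace ℝ H]
    [CompleteSpace H] {k : ℕ} (A : Fin k → ∀ m, H →L[ℝ] E u m) :
    ∃ K : ℕ → Submodule ℝ H, Monotone K ∧ (∀ n, FiniteDimensional ℝ (K n)) ∧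
      (∀ n, Module.finrank ℝ (K n) ≤ k * ∑ m ∈ Finset.range n, u m) ∧
      ∀ i n y, ContinuousLinearMap.adjoint (A i n) y ∈ K (n + 1) := by
  set ζ : ∀ n, (Fin k × (Σ m : Fin n, Fin (u m))) → H := fun n q =>
    ContinuousLinearMap.adjoint (A q.1 q.2.1) (EuclideanSpace.single q.2.2 1) with hζ
  refine ⟨fun n => Submodule.span ℝ (Set.range (ζ n)), ?_, ?_, ?_, ?_⟩
  · intro a b hab
    refine Submodule.span_mono ?_
    rintro _ ⟨⟨i, m, t⟩, rfl⟩
    exact ⟨⟨i, ⟨m, lt_of_lt_of_le m.2 hab⟩, t⟩, rfl⟩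
  · intro n
    exact FiniteDimensional.span_of_finite ℝ (Set.finite_range _)
  · intro n
    have h1 : Module.finrank ℝ (Submodule.span ℝ (Set.range (ζ n))) ≤
        Fintype.card (Fin k × (Σ m : Fin n, Fin (u m))) := finrank_range_le_card (ζ n)
    refine h1.trans (le_of_eq ?_)
    rw [Fintype.card_prod, Fintype.card_fin, Fintype.card_sigma]
    congr 1
    simp only [Fintype.card_fin]
    exact Fin.sum_univ_eq_sum_range (fun m => u m) n
  · intro i n y
    have h1 : y = ∑ t, y t • EuclideanSpace.single t (1 : ℝ) := by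
      have h2 := (EuclideanSpace.basisFun (Fin (u n)) ℝ).sum_repr y
      simp only [EuclideanSpace.basisFun_repr, EuclideanSpace.basisFun_apply] at h2
      exact h2.symm
    rw [h1, map_sum]
    refine Submodule.sum_mem _ fun t _ => ?_
    rw [map_smul]
    refine Submodule.smul_mem _ _ (Submodule.subset_span ?_)
    exact ⟨⟨i, ⟨n, Nat.lt_succ_self n⟩, t⟩, rfl⟩

variable {p : ℝ≥0∞} [Fact (1 ≤ p)] (P : Params p)

/-- the coefficients of small subfamilies, placed in the next block -/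
lemma exists_place (hp : p ≠ ∞) (J : ∀ n, Finset (Fin (P.v n))) (hJ : ∀ n, P.Small n (J n)) :
    ∃ S : USp P.u p →L[ℝ] USp P.u p, ‖S‖ ≤ 2 ∧ ∀ y n (j : Fin (P.v n)),
      (S y) (n + 1) ⟨j, j.2.trans (P.v_lt_u n)⟩ =
        if j ∈ J n then inner ℝ (y n) (P.g n j) else 0 := by
  classical
  have hR : ∀ n, ∃ R : E P.u n →L[ℝ] E P.u (n + 1), ‖R‖ ≤ 2 ∧ ∀ y (j : Fin (P.v n)),
      R y ⟨j, j.2.trans (P.v_lt_u n)⟩ = if j ∈ J n then inner ℝ y (P.g n j) else 0 := by
    intro n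
    set e : Fin (P.v n) ↪ Fin (P.u (n + 1)) :=
      ⟨Fin.castLE (P.v_lt_u n).le, Fin.castLE_injective _⟩ with he
    set F : E P.u n → Fin (P.u (n + 1)) → ℝ := fun y t =>
      if h : (t : ℕ) < P.v n then
        (if (⟨t, h⟩ : Fin (P.v n)) ∈ J n then inner ℝ y (P.g n ⟨t, h⟩) else 0) else 0 with hF
    set R₀ : E P.u n →ₗ[ℝ] E P.u (n + 1) :=
      { toFun := fun y => WithLp.toLp 2 (F y)
        map_add' := fun x y => by
          ext t
          simp only [hF, PiLp.add_apply]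
          split_ifs
          · exact inner_add_left _ _ _
          · rw [add_zero]
          · rw [add_zero]
        map_smul' := fun c x => by
          ext t
          simp only [hF, PiLp.smul_apply, smul_eq_mul, RingHom.id_apply]
          split_ifs
          · exact real_inner_smul_left _ _ _
          · rw [mul_zero]
          · rw [mul_zero] } with hR₀
    have hR₀a : ∀ y t, R₀ y t = F y t := fun y t => rfl
    have hFe : ∀ y (j : Fin (P.v n)), F y (e j) =
        if j ∈ J n then inner ℝ y (P.g n j) else 0 := by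
      intro y j
      have h1 : ((e j : Fin (P.u (n + 1))) : ℕ) < P.v n := j.2
      have h2 : (⟨((e j : Fin (P.u (n + 1))) : ℕ), h1⟩ : Fin (P.v n)) = j := rfl
      simp only [hF]
      rw [dif_pos h1, h2]
    have hnorm : ∀ y, ‖R₀ y‖ ≤ 2 * ‖y‖ := by
      intro y
      have h1 : ‖R₀ y‖ ^ 2 = ∑ j ∈ J n, inner ℝ y (P.g n j) ^ 2 := by
        rw [EuclideanSpace.norm_sq_eq]
        have h0 : ∀ j ∈ J n, inner ℝ y (P.g n j) ^ 2 = ‖R₀ y (e j)‖ ^ 2 := by
          intro j hj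
          rw [hR₀a, hFe, if_pos hj, Real.norm_eq_abs, sq_abs]
        rw [Finset.sum_congr rfl h0, ← Finset.sum_map (J n) e fun t => ‖R₀ y t‖ ^ 2]
        refine (Finset.sum_subset (Finset.subset_univ _) ?_).symm
        intro t _ ht
        have h2 : F y t = 0 := by
          simp only [hF]
          split_ifs with h3 h4
          · exfalso
            exact ht (Finset.mem_map.2 ⟨⟨t, h3⟩, h4, rfl⟩)
          · rfl
          · rfl
        rw [hR₀a, h2]
        simp
      have h2 := P.bessel n (J n) (hJ n) y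
      have h3 : ‖R₀ y‖ ^ 2 ≤ (2 * ‖y‖) ^ 2 := by
        rw [h1]
        nlinarith [sq_nonneg ‖y‖]
      exact (pow_le_pow_iff_left₀ (norm_nonneg _) (by positivity) two_ne_zero).1 h3
    refine ⟨LinearMap.mkContinuous R₀ 2 hnorm, LinearMap.mkContinuous_norm_le _ (by norm_num) _, ?_⟩
    intro y j
    exact hFe y j
  choose R hR1 hR2 using hR
  obtain ⟨S, hS, hSa⟩ := exists_shift (E := E P.u) (F := E P.u) (p := p) hp Nat.pred
    (fun k => match k with
      | 0 => 0
      | n + 1 => R n) (by norm_num : (0 : ℝ) ≤ 2) (fun k => by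
        cases k with
        | zero => simp
        | succ n => exact hR1 n) (by
      intro k k' hkk hk hk'
      cases k with
      | zero => exact absurd rfl hk
      | succ n =>
        cases k' with
        | zero => exact absurd rfl hk'
        | succ n' =>
          simp only [Nat.pred_succ] at hkk
          rw [hkk])
  refine ⟨S, hS, fun y n j => ?_⟩
  rw [hSa]
  exact hR2 n _ j

section KP

variable {Z : Type} [NormedAddCommGroup Z] [NormedSpace ℝ Z] (hZ : CoordSpace P.v Z)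
  {T : Set ℕ → (USp P.u p →L[ℝ] Z)} (hT : ∀ M, IsT P hZ M (T M))
  {I : USp P.u p →L[ℝ] Z} (hI : IsI P hZ I)

include hI in
/-- reading the next block through the formal inclusion -/
lemma exists_back (D : USp P.u p →L[ℝ] USp P.u p) :
    ∃ β ∈ idealGen I, ∀ x n (j : Fin (P.v n)),
      hZ.c (β x) ⟨n, j⟩ = (D x) (n + 1) ⟨j, j.2.trans (P.v_lt_u n)⟩ := by
  set τ : Ix P.v → Ix P.v := fun μ =>
    unpos P.v P.v_pos (pos P.u (μ.1 + 1) ⟨μ.2, μ.2.2.trans (P.v_lt_u μ.1)⟩) with hτ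
  have hτinj : ∀ μ μ', τ μ = τ μ' → μ = μ' := by
    intro μ μ' h
    have h1 := unpos_injective P.v_pos h
    have h2 := pos_injective (ν := (⟨μ.1 + 1, ⟨μ.2, μ.2.2.trans (P.v_lt_u μ.1)⟩⟩ : Ix P.u))
      (μ := (⟨μ'.1 + 1, ⟨μ'.2, μ'.2.2.trans (P.v_lt_u μ'.1)⟩⟩ : Ix P.u)) h1
    have h3 : μ.1 = μ'.1 := by
      have := congrArg Sigma.fst h2
      simpa using this
    have h4 : (μ.2 : ℕ) = μ'.2 := by
      have := congrArg (fun q : Ix P.u => (q.2 : ℕ)) h2
      simpa using this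
    exact Sigma.ext h3 ((Fin.heq_ext_iff (by rw [h3])).2 h4)
  obtain ⟨A, _, hA⟩ := hZ.exists_shuffle (fun μ => some (τ μ)) (by
    intro ν
    refine Set.Subsingleton.finite ?_
    intro μ hμ μ' hμ'
    simp only [Set.mem_ofPred_eq] at hμ hμ'
    exact hτinj _ _ (Option.some.inj (hμ.trans hμ'.symm)))
  refine ⟨(A.comp I).comp D, (isClosedIdeal_idealGen _).comp _ _ _ (mem_idealGen _), ?_⟩
  intro x n j
  change hZ.c (A (I (D x))) ⟨n, j⟩ = _
  rw [hA, Option.elim_some, hI]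
  have h1 : P.tw (τ ⟨n, j⟩) = ⟨n + 1, ⟨j, j.2.trans (P.v_lt_u n)⟩⟩ := by
    unfold Params.tw
    rw [hτ]
    simp only
    rw [pos_unpos]
    exact unpos_pos P.u_pos ⟨n + 1, ⟨j, j.2.trans (P.v_lt_u n)⟩⟩
  rw [h1]

include hT hI in
/-- The key property. -/
lemma KP_rows {Λ : Type} {H : Λ → Type} [∀ l, NormedAddCommGroup (H l)]
    [∀ l, InnerProductSpace ℝ (H l)] [∀ l, CompleteSpace (H l)]
    (inj : ∀ l, H l →L[ℝ] USp P.u p) (hinj : ∀ l, ‖inj l‖ ≤ 1)
    (hlift : ∀ (R : ∀ l, H l →L[ℝ] USp P.u p) (C : ℝ), 0 ≤ C → (∀ l, ‖R l‖ ≤ C) →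
      ∃ S : USp P.u p →L[ℝ] USp P.u p, ‖S‖ ≤ C ∧ ∀ l x, S (inj l x) = R l x)
    (hbound : ∀ (S : USp P.u p →L[ℝ] Z) (C : ℝ), 0 ≤ C → (∀ l x, ‖S (inj l x)‖ ≤ C * ‖x‖) →
      ‖S‖ ≤ C)
    (hp : p = 1 ∨ p = 2) (ls : List (USp P.u p →L[ℝ] USp P.u p)) (L : Set ℕ) :
    ∃ Q : USp P.u p →L[ℝ] USp P.u p, ‖Q‖ ≤ 1 ∧ ∀ B ∈ ls, ∀ M : Set ℕ,
      ((T M).comp B).comp Q - (T (M ∩ L)).comp B ∈ idealGen I := by
  classical
  have hptop : p ≠ ∞ := by
    rcases hp with rfl | rfl
    · exact ENNReal.one_ne_top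
    · exact ENNReal.ofNat_ne_top
  -- the components
  set A : ∀ l, Fin ls.length → ∀ m, H l →L[ℝ] E P.u m := fun l i m =>
    ((lp.evalCLM ℝ (E P.u) p m).comp (ls.get i)).comp (inj l) with hA
  have hAa : ∀ l i m x, A l i m x = (ls.get i (inj l x)) m := fun l i m x => rfl
  choose K hKmono hKfin hKrank hKmem using fun l => exists_levels (A l)
  have : ∀ l n, FiniteDimensional ℝ (K l n) := hKfin
  choose Q hQ1 hQsymm hQproj using fun l => exists_proj (K l) (hKmono l) L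
  obtain ⟨QQ, hQQ1, hQQ⟩ := hlift (fun l => (inj l).comp (Q l)) 1 zero_le_one (fun l => by
    refine (ContinuousLinearMap.opNorm_comp_le _ _).trans ?_
    calc ‖inj l‖ * ‖Q l‖ ≤ 1 * 1 := by
          gcongr
          · exact hinj l
          · exact hQ1 l
      _ = 1 := one_mul 1)
  refine ⟨QQ, hQQ1, ?_⟩
  intro B hB M
  obtain ⟨i, rfl⟩ := List.mem_iff_get.1 hB
  set B := ls.get i with hBdef
  set η : ∀ (l : Λ) (n : ℕ), Fin (P.v n) → H l := fun l n j =>
    ContinuousLinearMap.adjoint (A l i n) (P.g n j) with hη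
  have hηin : ∀ l n j x, inner ℝ (η l n j) x = inner ℝ (P.g n j) ((B (inj l x)) n) := by
    intro l n j x
    rw [hη]
    simp only
    rw [ContinuousLinearMap.adjoint_inner_left]
    rfl
  refine (isClosedIdeal_idealGen I).mem_of_approx fun ε hε => ?_
  obtain ⟨n₀, hn₀1, hn₀⟩ := P.exists_small hp (2 * ‖B‖ ^ 2 / ε ^ 2 * ls.length)
  -- the vectors with a large projection
  have hPK : ∀ l n, ∃ J : Finset (Fin (P.v n)), P.Small n J ∧
      (n₀ ≤ n → ∀ j, j ∉ J → ∀ x : H l,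
        |inner ℝ x (Q l (η l n j) - (if n ∈ L then η l n j else 0))| ≤ ε * ‖x‖) := by
    intro l n
    by_cases hn : n₀ ≤ n
    swap
    · exact ⟨∅, P.small_empty n, fun h => absurd h hn⟩
    refine ⟨(Finset.univ : Finset (Fin (P.v n))).filter
      fun j => ε ≤ ‖(K l n).starProjection (η l n j)‖, ?_, ?_⟩
    · refine card_large_le (K l n) (η l n) (c := 2 * ‖B‖ ^ 2) (by positivity) hε ?_ ?_
      · intro J hJ x
        simp only [hηin]
        have h1 := P.bessel n J hJ ((B (inj l x)) n)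
        have h2 : ‖(B (inj l x)) n‖ ≤ ‖B‖ * ‖x‖ := by
          have hp0 : p ≠ 0 := by
            rcases hp with rfl | rfl <;> norm_num
          calc ‖(B (inj l x)) n‖ ≤ ‖B (inj l x)‖ := lp.norm_apply_le_norm hp0 _ n
            _ ≤ ‖B‖ * ‖inj l x‖ := B.le_opNorm _
            _ ≤ ‖B‖ * (‖inj l‖ * ‖x‖) := by
                gcongr
                exact (inj l).le_opNorm _
            _ ≤ ‖B‖ * (1 * ‖x‖) := by
                gcongr
                exact hinj l
            _ = ‖B‖ * ‖x‖ := by ring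
        have h3 : ‖(B (inj l x)) n‖ ^ 2 ≤ (‖B‖ * ‖x‖) ^ 2 := by gcongr
        calc ∑ j ∈ J, inner ℝ (P.g n j) ((B (inj l x)) n) ^ 2
            = ∑ j ∈ J, inner ℝ ((B (inj l x)) n) (P.g n j) ^ 2 := by
              refine Finset.sum_congr rfl fun j _ => ?_
              rw [real_inner_comm]
          _ ≤ 2 * ‖(B (inj l x)) n‖ ^ 2 := h1
          _ ≤ 2 * (‖B‖ * ‖x‖) ^ 2 := by linarith
          _ = 2 * ‖B‖ ^ 2 * ‖x‖ ^ 2 := by ring
      · refine le_trans ?_ (hn₀ n hn)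
        have h1 : (Module.finrank ℝ (K l n) : ℝ) ≤
            (ls.length : ℝ) * ((∑ m ∈ Finset.range n, P.u m : ℕ) : ℝ) := by
          exact_mod_cast hKrank l n
        calc 2 * ‖B‖ ^ 2 / ε ^ 2 * (Module.finrank ℝ (K l n) : ℝ) + 1
            ≤ 2 * ‖B‖ ^ 2 / ε ^ 2 *
                ((ls.length : ℝ) * ((∑ m ∈ Finset.range n, P.u m : ℕ) : ℝ)) + 1 := by
              gcongr
          _ = 2 * ‖B‖ ^ 2 / ε ^ 2 * ls.length * ((∑ m ∈ Finset.range n, P.u m : ℕ) : ℝ) + 1 := by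
              ring
    · intro _ j hj x
      rw [Finset.mem_filter, not_and] at hj
      have h1 := not_le.1 (hj (Finset.mem_univ j))
      obtain ⟨h2, h3⟩ := hQproj l n (η l n j) (hKmem l i n _)
      have h4 : ‖Q l (η l n j) - (if n ∈ L then η l n j else 0)‖ ≤ ε := by
        split_ifs with h
        · exact (h2 h).trans h1.le
        · rw [sub_zero]
          exact (h3 h).trans h1.le
      calc |inner ℝ x (Q l (η l n j) - (if n ∈ L then η l n j else 0))|
          ≤ ‖x‖ * ‖Q l (η l n j) - (if n ∈ L then η l n j else 0)‖ := abs_real_inner_le_norm _ _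
        _ ≤ ‖x‖ * ε := by gcongr
        _ = ε * ‖x‖ := mul_comm _ _
  choose J hJsmall hJ using hPK
  choose Pl hPl1 hPl using fun l => exists_place P hptop (J l) (hJsmall l)
  obtain ⟨D, _, hD⟩ := hlift (fun l => (Pl l).comp (B.comp (inj l))) (2 * ‖B‖) (by positivity)
    (fun l => by
      calc ‖(Pl l).comp (B.comp (inj l))‖ ≤ ‖Pl l‖ * ‖B.comp (inj l)‖ :=
            ContinuousLinearMap.opNorm_comp_le _ _
        _ ≤ 2 * (‖B‖ * ‖inj l‖) := by
            gcongr
            · exact hPl1 l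
            · exact ContinuousLinearMap.opNorm_comp_le _ _
        _ ≤ 2 * (‖B‖ * 1) := by
            gcongr
            exact hinj l
        _ = 2 * ‖B‖ := by ring)
  obtain ⟨β, hβI, hβ⟩ := exists_back P hZ hI D
  have hβinj : ∀ l x n (j : Fin (P.v n)), hZ.c (β (inj l x)) ⟨n, j⟩ =
      if j ∈ J l n then inner ℝ ((B (inj l x)) n) (P.g n j) else 0 := by
    intro l x n j
    rw [hβ, hD]
    exact hPl l _ n j
  set br := ((T M).comp B).comp QQ - (T (M ∩ L)).comp B with hbr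
  obtain ⟨π₀, _, hπ₀⟩ := exists_coordProj P hZ {ν | ν.1 < n₀}
  obtain ⟨π₁, _, hπ₁⟩ := exists_coordProj P hZ {ν | n₀ ≤ ν.1 ∧ ν.1 ∈ M}
  obtain ⟨π₂, _, hπ₂⟩ := exists_coordProj P hZ {ν | n₀ ≤ ν.1 ∧ ν.1 ∈ M ∩ L}
  refine ⟨π₀.comp br + π₁.comp (β.comp QQ) - π₂.comp β, ?_, ?_⟩
  · refine Submodule.sub_mem _ (Submodule.add_mem _ ?_ ?_) ?_
    · refine finite_mem P hZ hI _ (n₀ := n₀) fun x ν hν => ?_
      change hZ.c (π₀ (br x)) ν = 0
      rw [hπ₀, if_neg]
      exact not_lt.2 hν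
    · exact (isClosedIdeal_idealGen I).left _ ((isClosedIdeal_idealGen I).right _ hβI)
    · exact (isClosedIdeal_idealGen I).left _ hβI
  · refine hbound _ ε hε.le fun l x => ?_
    refine hZ.le_of _ _ (by positivity) fun ν => ?_
    obtain ⟨n, j⟩ := ν
    have e1 : (br - (π₀.comp br + π₁.comp (β.comp QQ) - π₂.comp β)) (inj l x) =
        br (inj l x) - (π₀ (br (inj l x)) + π₁ (β (QQ (inj l x))) - π₂ (β (inj l x))) := rfl
    rw [e1, map_sub, map_sub, map_add]
    simp only [Pi.sub_apply, Pi.add_apply]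
    rw [hπ₀, hπ₁, hπ₂]
    have ebr : hZ.c (br (inj l x)) ⟨n, j⟩ =
        (if n ∈ M then inner ℝ ((B (inj l (Q l x))) n) (P.g n j) else 0) -
          (if n ∈ M ∩ L then inner ℝ ((B (inj l x)) n) (P.g n j) else 0) := by
      have e2 : br (inj l x) = T M (B (QQ (inj l x))) - T (M ∩ L) (B (inj l x)) := rfl
      rw [e2, map_sub, Pi.sub_apply, hT, hT, hQQ]
      refine congrArg₂ (fun a b : ℝ => a - b) ?_ ?_
      · rfl
      · by_cases h : n ∈ M ∩ L
        · rw [if_pos h, if_pos h]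
        · rw [if_neg h, if_neg h]
    have eQ : QQ (inj l x) = inj l (Q l x) := hQQ l x
    rw [eQ, hβinj, hβinj, ebr]
    by_cases hn : n < n₀
    · rw [if_pos (show (⟨n, j⟩ : Ix P.v) ∈ {ν : Ix P.v | ν.1 < n₀} from hn),
        if_neg (show ¬ (⟨n, j⟩ : Ix P.v) ∈ {ν : Ix P.v | n₀ ≤ ν.1 ∧ ν.1 ∈ M} from
          fun h => absurd h.1 (not_le.2 hn)),
        if_neg (show ¬ (⟨n, j⟩ : Ix P.v) ∈ {ν : Ix P.v | n₀ ≤ ν.1 ∧ ν.1 ∈ M ∩ L} from
          fun h => absurd h.1 (not_le.2 hn))]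
      rw [add_zero, sub_zero, sub_self, abs_zero]
      positivity
    · have hn' := not_lt.1 hn
      rw [if_neg (show ¬ (⟨n, j⟩ : Ix P.v) ∈ {ν : Ix P.v | ν.1 < n₀} from hn)]
      by_cases hM : n ∈ M
      · rw [if_pos (show (⟨n, j⟩ : Ix P.v) ∈ {ν : Ix P.v | n₀ ≤ ν.1 ∧ ν.1 ∈ M} from ⟨hn', hM⟩),
          if_pos hM]
        by_cases hj : j ∈ J l n
        · rw [if_pos hj, if_pos hj]
          by_cases hL : n ∈ L
          · rw [if_pos (show (⟨n, j⟩ : Ix P.v) ∈ {ν : Ix P.v | n₀ ≤ ν.1 ∧ ν.1 ∈ M ∩ L} from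
              ⟨hn', hM, hL⟩), if_pos (show n ∈ M ∩ L from ⟨hM, hL⟩)]
            have : ∀ a b : ℝ, a - b - (0 + a - b) = 0 := fun a b => by ring
            rw [this, abs_zero]
            positivity
          · rw [if_neg (show ¬ (⟨n, j⟩ : Ix P.v) ∈ {ν : Ix P.v | n₀ ≤ ν.1 ∧ ν.1 ∈ M ∩ L} from
              fun h => hL h.2.2), if_neg (show ¬ n ∈ M ∩ L from fun h => hL h.2)]
            have : ∀ a : ℝ, a - 0 - (0 + a - 0) = 0 := fun a => by ring
            rw [this, abs_zero]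
            positivity
        · rw [if_neg hj, if_neg hj]
          have h5 := hJ l n hn' j hj x
          have h6 : inner ℝ x (Q l (η l n j)) = inner ℝ ((B (inj l (Q l x))) n) (P.g n j) := by
            rw [← hQsymm, real_inner_comm, hηin, real_inner_comm]
          have h7 : inner ℝ x (η l n j) = inner ℝ ((B (inj l x)) n) (P.g n j) := by
            rw [real_inner_comm, hηin, real_inner_comm]
          rw [inner_sub_right, h6] at h5
          by_cases hL : n ∈ L
          · rw [if_pos hL, h7] at h5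
            rw [if_pos (show (⟨n, j⟩ : Ix P.v) ∈ {ν : Ix P.v | n₀ ≤ ν.1 ∧ ν.1 ∈ M ∩ L} from
              ⟨hn', hM, hL⟩), if_pos (show n ∈ M ∩ L from ⟨hM, hL⟩)]
            have : ∀ a b : ℝ, a - b - (0 + 0 - 0) = a - b := fun a b => by ring
            rw [this]
            exact h5
          · rw [if_neg hL, inner_zero_right] at h5
            rw [if_neg (show ¬ (⟨n, j⟩ : Ix P.v) ∈ {ν : Ix P.v | n₀ ≤ ν.1 ∧ ν.1 ∈ M ∩ L} from
              fun h => hL h.2.2), if_neg (show ¬ n ∈ M ∩ L from fun h => hL h.2)]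
            have : ∀ a : ℝ, a - 0 - (0 + 0 - 0) = a - 0 := fun a => by ring
            rw [this]
            exact h5
      · rw [if_neg (show ¬ (⟨n, j⟩ : Ix P.v) ∈ {ν : Ix P.v | n₀ ≤ ν.1 ∧ ν.1 ∈ M} from
            fun h => hM h.2), if_neg hM, if_neg (show ¬ n ∈ M ∩ L from fun h => hM h.1),
          if_neg (show ¬ (⟨n, j⟩ : Ix P.v) ∈ {ν : Ix P.v | n₀ ≤ ν.1 ∧ ν.1 ∈ M ∩ L} from
            fun h => hM h.2.1)]
        simp only [sub_zero, add_zero, abs_zero]
        positivity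

end KP

end Pool.Agent.Lib.MP_537232_an
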