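import Pool.Agent.Lib.MP_537232_an.Defs

set_option autoImplicit false

/-!
# Positions of coordinates; growth of the parameters
-/

open scoped ENNReal Topology
open Filter

namespace Pool.Agent.Lib.MP_537232_an

section Pos

variable {w : ℕ → ℕ}

lemma sum_range_le {w : ℕ → ℕ} {m n : ℕ} (h : m ≤ n) :
    ∑ l ∈ Finset.range m, w l ≤ ∑ l ∈ Finset.range n, w l :=
  Finset.sum_le_sum_of_subset (Finset.range_subset_range.2 h)

lemma pos_lt (n : ℕ) (t : Fin (w n)) : pos w n t < ∑ l ∈ Finset.range (n + 1), w l := by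
  unfold pos
  rw [Finset.sum_range_succ]
  have := t.2
  omega

lemma le_pos (n : ℕ) (t : Fin (w n)) : ∑ l ∈ Finset.range n, w l ≤ pos w n t := by
  unfold pos
  omega

lemma pos_injective {ν μ : Σ n, Fin (w n)} (h : pos w ν.1 ν.2 = pos w μ.1 μ.2) : ν = μ := by
  obtain ⟨n, t⟩ := ν
  obtain ⟨m, s⟩ := μ
  simp only at h
  have hnm : n = m := by
    by_contra hne
    rcases Nat.lt_or_gt_of_ne hne with hlt | hlt
    · have h1 := pos_lt n t
      have h2 := le_pos m s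
      have h3 := sum_range_le (w := w) (Nat.succ_le_of_lt hlt)
      simp only [Nat.succ_eq_add_one] at h3
      omega
    · have h1 := pos_lt m s
      have h2 := le_pos n t
      have h3 := sum_range_le (w := w) (Nat.succ_le_of_lt hlt)
      simp only [Nat.succ_eq_add_one] at h3
      omega
  subst hnm
  have hts : (t : ℕ) = s := by
    unfold pos at h
    omega
  rw [Fin.ext hts]

lemma pos_surjective (hw : ∀ n, 0 < w n) (k : ℕ) : ∃ ν : Σ n, Fin (w n), pos w ν.1 ν.2 = k := by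
  have hgrow : ∀ n, n ≤ ∑ l ∈ Finset.range n, w l := by
    intro n
    induction n with
    | zero => simp
    | succ n ih =>
      rw [Finset.sum_range_succ]
      have := hw n
      omega
  have hex : ∃ n, k < ∑ l ∈ Finset.range (n + 1), w l :=
    ⟨k, lt_of_lt_of_le (Nat.lt_succ_self k) (hgrow (k + 1))⟩
  classical
  have hn := Nat.find_spec hex
  set n := Nat.find hex with hndef
  have hle : ∑ l ∈ Finset.range n, w l ≤ k := by
    by_cases h0 : n = 0
    · rw [h0]; simp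
    · have := Nat.find_min hex (m := n - 1) (by rw [← hndef]; omega)
      rw [Nat.sub_add_cancel (Nat.one_le_iff_ne_zero.2 h0)] at this
      exact not_lt.1 this
  rw [Finset.sum_range_succ] at hn
  refine ⟨⟨n, ⟨k - ∑ l ∈ Finset.range n, w l, by omega⟩⟩, ?_⟩
  unfold pos
  simp only
  omega

/-- the coordinate with a given position -/
noncomputable def unpos (w : ℕ → ℕ) (hw : ∀ n, 0 < w n) (k : ℕ) : Σ n, Fin (w n) :=
  (pos_surjective hw k).choose

lemma pos_unpos (hw : ∀ n, 0 < w n) (k : ℕ) :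
    pos w (unpos w hw k).1 (unpos w hw k).2 = k :=
  (pos_surjective hw k).choose_spec

lemma unpos_pos (hw : ∀ n, 0 < w n) (ν : Σ n, Fin (w n)) :
    unpos w hw (pos w ν.1 ν.2) = ν :=
  pos_injective (pos_unpos hw _)

lemma unpos_injective (hw : ∀ n, 0 < w n) {k k' : ℕ} (h : unpos w hw k = unpos w hw k') :
    k = k' := by
  rw [← pos_unpos hw k, h, pos_unpos hw k']

end Pos

section Growth

variable {p : ℝ≥0∞} (P : Params p)

lemma Params.sum_le (n : ℕ) : ∑ m ∈ Finset.range n, P.u m ≤ P.u n := by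
  refine le_trans ?_ (P.u_large n)
  have h1 : ∑ m ∈ Finset.range n, P.u m < 2 ^ (∑ m ∈ Finset.range n, P.u m) := Nat.lt_two_pow_self
  have h2 : 2 ^ (∑ m ∈ Finset.range n, P.u m) ≤
      (6 * (n + 1) + 1) ^ (∑ m ∈ Finset.range n, P.u m) := Nat.pow_le_pow_left (by omega) _
  have h3 : 1 ≤ 19 * (n + 1) ^ 3 := Nat.one_le_iff_ne_zero.2 (by positivity)
  calc ∑ m ∈ Finset.range n, P.u m ≤ (6 * (n + 1) + 1) ^ (∑ m ∈ Finset.range n, P.u m) := by omega
    _ = 1 * (6 * (n + 1) + 1) ^ (∑ m ∈ Finset.range n, P.u m) := (one_mul _).symm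
    _ ≤ 19 * (n + 1) ^ 3 * (6 * (n + 1) + 1) ^ (∑ m ∈ Finset.range n, P.u m) :=
        Nat.mul_le_mul_right _ h3

lemma Params.u_pos (n : ℕ) : 0 < P.u n := by
  refine lt_of_lt_of_le ?_ (P.u_large n)
  positivity

lemma Params.v_pos (n : ℕ) : 0 < P.v n := lt_of_le_of_lt (Nat.zero_le _) (P.u_lt_v n)

lemma Params.sum_succ_le (n : ℕ) : ∑ m ∈ Finset.range (n + 1), P.u m ≤ 2 * P.u n := by
  rw [Finset.sum_range_succ]
  have := P.sum_le n
  omega

lemma sNum_eq (hp : p = 1 ∨ p = 2) (u : ℕ → ℕ) (n : ℕ) :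
    sNum p u n = 2 * (u n : ℝ) * ((n : ℝ) + 1) ^ 2 := by
  unfold sNum
  rcases hp with rfl | rfl
  · rw [if_neg]
    intro h
    have : ¬ ((2 : ℝ≥0∞) ≤ 1) := by norm_num
    exact this h
  · rw [if_pos le_rfl]
    have h2 : (2 : ℝ≥0∞).toReal = 2 := by simp
    rw [h2]
    norm_num

/-- the size of the sets of vectors controlled by the hypotheses -/
def Params.Small (P : Params p) (n : ℕ) (J : Finset (Fin (P.v n))) : Prop :=
  (J.card : ℝ) ≤ max (sPrev p P.u n + 1) (19 * ((n : ℝ) + 1) ^ 2)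

lemma Params.small_empty (n : ℕ) : P.Small n ∅ := by
  unfold Params.Small
  simp only [Finset.card_empty, Nat.cast_zero]
  exact le_max_of_le_right (by positivity)

lemma Params.Small.mono {P : Params p} {n : ℕ} {J J' : Finset (Fin (P.v n))} (h : P.Small n J)
    (hJ : J' ⊆ J) : P.Small n J' := by
  unfold Params.Small at h ⊢
  refine le_trans ?_ h
  exact_mod_cast Finset.card_le_card hJ

/-- sets which are small compared with the dimension of the previous blocks are small -/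
lemma Params.exists_small (hp : p = 1 ∨ p = 2) (C : ℝ) :
    ∃ n₀ : ℕ, 1 ≤ n₀ ∧ ∀ n, n₀ ≤ n → C * ((∑ m ∈ Finset.range n, P.u m : ℕ) : ℝ) + 1 ≤
      max (sPrev p P.u n + 1) (19 * ((n : ℝ) + 1) ^ 2) := by
  obtain ⟨k, hk⟩ := exists_nat_ge (max C 1)
  refine ⟨k + 1, by omega, ?_⟩
  intro n hn
  obtain ⟨m, rfl⟩ : ∃ m, n = m + 1 := ⟨n - 1, by omega⟩
  refine le_max_of_le_left ?_
  have h1 : ((∑ l ∈ Finset.range (m + 1), P.u l : ℕ) : ℝ) ≤ 2 * (P.u m : ℝ) := by
    exact_mod_cast P.sum_succ_le m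
  have h2 : sPrev p P.u (m + 1) = 2 * (P.u m : ℝ) * ((m : ℝ) + 1) ^ 2 := sNum_eq hp _ _
  rw [h2]
  have hkm : (k : ℝ) ≤ m := by exact_mod_cast (by omega : k ≤ m)
  have hC1 : C ≤ (m : ℝ) := (le_max_left _ _).trans (hk.trans hkm)
  have h11 : (1 : ℝ) ≤ m := (le_max_right C 1).trans (hk.trans hkm)
  have h3 : C ≤ ((m : ℝ) + 1) ^ 2 := by nlinarith
  have h4 : (0 : ℝ) ≤ ((∑ l ∈ Finset.range (m + 1), P.u l : ℕ) : ℝ) := Nat.cast_nonneg _
  have h5 : (0 : ℝ) ≤ ((m : ℝ) + 1) ^ 2 := by positivity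
  calc C * ((∑ l ∈ Finset.range (m + 1), P.u l : ℕ) : ℝ) + 1
      ≤ ((m : ℝ) + 1) ^ 2 * ((∑ l ∈ Finset.range (m + 1), P.u l : ℕ) : ℝ) + 1 := by gcongr
    _ ≤ ((m : ℝ) + 1) ^ 2 * (2 * (P.u m : ℝ)) + 1 := by gcongr
    _ = 2 * (P.u m : ℝ) * ((m : ℝ) + 1) ^ 2 + 1 := by ring

end Growth

end Pool.Agent.Lib.MP_537232_an
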