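import Pool.Agent.Lib.MP_537232_an.Hilb

set_option autoImplicit false

/-!
# Biorthogonal maps for Riesz systems
-/

open scoped ENNReal Topology
open Filter

namespace Pool.Agent.Lib.MP_537232_an

lemma exists_dual {H : Type*} [NormedAddCommGroup H] [InnerProductSpace ℝ H] [CompleteSpace H]
    {d : ℕ} (w : Fin d → H)
    (hlow : ∀ a : Fin d → ℝ, 1 / 2 * ∑ t, a t ^ 2 ≤ ‖∑ t, a t • w t‖ ^ 2) :
    ∃ L : EuclideanSpace ℝ (Fin d) →L[ℝ] H, ‖L‖ ≤ 2 ∧ ∀ z t, inner ℝ (L z) (w t) = z t := by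
  set G₀ : EuclideanSpace ℝ (Fin d) →ₗ[ℝ] H :=
    { toFun := fun a => ∑ t, a t • w t
      map_add' := fun a b => by
        simp only [PiLp.add_apply, add_smul, Finset.sum_add_distrib]
      map_smul' := fun c a => by
        simp only [PiLp.smul_apply, smul_eq_mul, mul_smul, Finset.smul_sum, RingHom.id_apply] }
    with hG₀
  set G : EuclideanSpace ℝ (Fin d) →L[ℝ] H := LinearMap.toContinuousLinearMap G₀ with hG
  have hGa : ∀ a, G a = ∑ t, a t • w t := fun a => rfl
  have hlow' : ∀ a : EuclideanSpace ℝ (Fin d), ‖a‖ ^ 2 ≤ 2 * ‖G a‖ ^ 2 := by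
    intro a
    have h := hlow fun t => a t
    rw [← hGa] at h
    rw [EuclideanSpace.norm_sq_eq]
    have h1 : ∑ i, ‖a i‖ ^ 2 = ∑ t, a t ^ 2 :=
      Finset.sum_congr rfl fun t _ => by rw [Real.norm_eq_abs, sq_abs]
    rw [h1]
    linarith
  set T : EuclideanSpace ℝ (Fin d) →ₗ[ℝ] EuclideanSpace ℝ (Fin d) :=
    ((ContinuousLinearMap.adjoint G).comp G).toLinearMap with hT
  have hTa : ∀ a b, inner ℝ (T a) b = inner ℝ (G a) (G b) := by
    intro a b
    exact ContinuousLinearMap.adjoint_inner_left G b (G a)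
  have hinj : Function.Injective T := by
    rw [injective_iff_map_eq_zero]
    intro a ha
    have h1 := hTa a a
    rw [ha, inner_zero_left, real_inner_self_eq_norm_sq] at h1
    have h2 := hlow' a
    rw [← h1] at h2
    have h3 : ‖a‖ ^ 2 = 0 := le_antisymm (by linarith) (by positivity)
    exact norm_eq_zero.1 (pow_eq_zero_iff two_ne_zero |>.1 h3)
  set S := LinearEquiv.ofInjectiveEndo T hinj with hS
  have hTS : ∀ z, T (S.symm z) = z := fun z => S.apply_symm_apply z
  have hbound : ∀ z, ‖(G₀ ∘ₗ S.symm.toLinearMap) z‖ ≤ 2 * ‖z‖ := by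
    intro z
    change ‖G (S.symm z)‖ ≤ 2 * ‖z‖
    have h1 : ‖G (S.symm z)‖ ^ 2 = inner ℝ z (S.symm z) := by
      rw [← real_inner_self_eq_norm_sq, ← hTa, hTS]
    have h2 := real_inner_le_norm z (S.symm z)
    have h3 := hlow' (S.symm z)
    have h4 : ‖S.symm z‖ ≤ 2 * ‖G (S.symm z)‖ := by
      have : ‖S.symm z‖ ^ 2 ≤ (2 * ‖G (S.symm z)‖) ^ 2 := by
        nlinarith [sq_nonneg ‖G (S.symm z)‖]
      exact (pow_le_pow_iff_left₀ (norm_nonneg _) (by positivity) two_ne_zero).1 this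
    by_contra h5
    push Not at h5
    have h6 : 0 < ‖G (S.symm z)‖ := lt_of_le_of_lt (by positivity) h5
    nlinarith [norm_nonneg z, norm_nonneg (S.symm z)]
  refine ⟨LinearMap.mkContinuous (G₀ ∘ₗ S.symm.toLinearMap) 2 hbound,
    LinearMap.mkContinuous_norm_le _ (by norm_num) _, ?_⟩
  intro z t
  change inner ℝ (G (S.symm z)) (w t) = z t
  have h1 : w t = G (EuclideanSpace.single t 1) := by
    rw [hGa, Finset.sum_eq_single t]
    · simp
    · intro s _ hst
      simp [hst]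
    · intro h
      exact absurd (Finset.mem_univ t) h
  rw [h1, ← hTa, hTS, EuclideanSpace.inner_single_right]
  simp

lemma exists_dual' {H : Type*} [NormedAddCommGroup H] [InnerProductSpace ℝ H] [CompleteSpace H]
    {d : ℕ} (w : Fin d → H)
    (hlow : ∀ a : Fin d → ℝ, 1 / 2 * ∑ t, a t ^ 2 ≤ ‖∑ t, a t • w t‖ ^ 2) :
    ∃ A : H →L[ℝ] EuclideanSpace ℝ (Fin d), ‖A‖ ≤ 2 ∧
      ∀ t, A (w t) = EuclideanSpace.single t 1 := by
  obtain ⟨L, hL, hLw⟩ := exists_dual w hlow
  refine ⟨ContinuousLinearMap.adjoint L, ?_, ?_⟩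
  · rw [LinearIsometryEquiv.norm_map]
    exact hL
  · intro t
    refine ext_inner_right ℝ fun z => ?_
    rw [ContinuousLinearMap.adjoint_inner_left, real_inner_comm, hLw,
      EuclideanSpace.inner_single_left]
    simp

/-- The lower estimate for the first `d` vectors of a block. -/
lemma Params.lower_first {p : ℝ≥0∞} (P : Params p) (n : ℕ) {d : ℕ} (hd : d ≤ P.v n)
    (hd' : (d : ℝ) ≤ 19 * ((n : ℝ) + 1) ^ 2) (a : Fin d → ℝ) :
    1 / 2 * ∑ t, a t ^ 2 ≤ ‖∑ t, a t • P.g n (Fin.castLE hd t)‖ ^ 2 := by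
  classical
  set e : Fin d ↪ Fin (P.v n) := ⟨Fin.castLE hd, Fin.castLE_injective hd⟩ with he
  set J : Finset (Fin (P.v n)) := Finset.univ.map e with hJ
  set b : Fin (P.v n) → ℝ := fun i => if h : (i : ℕ) < d then a ⟨i, h⟩ else 0 with hb
  have hbe : ∀ t : Fin d, b (e t) = a t := by
    intro t
    have : ((e t : Fin (P.v n)) : ℕ) < d := t.2
    simp only [hb]
    rw [dif_pos this]
    rfl
  have h := P.lower n J (by
    refine le_max_of_le_right ?_
    rw [hJ, Finset.card_map, Finset.card_univ, Fintype.card_fin]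
    exact hd') b
  rw [hJ, Finset.sum_map, Finset.sum_map] at h
  simp only [hbe] at h
  exact h

end Pool.Agent.Lib.MP_537232_an
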