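import Pool.Agent.Lib.MP_537232_an.Coord
import Pool.Agent.Lib.MP_537232_an.Ideal

set_option autoImplicit false

/-!
# Operators from `U` to `V` or `W`: the easy facts
-/

open scoped ENNReal Topology
open Filter

namespace Pool.Agent.Lib.MP_537232_an

variable {p : ℝ≥0∞} [Fact (1 ≤ p)] (P : Params p)
  {Z : Type} [NormedAddCommGroup Z] [NormedSpace ℝ Z] (hZ : CoordSpace P.v Z)

open Classical in
/-- `T` is the operator `T_M`. -/
def IsT (M : Set ℕ) (T : USp P.u p →L[ℝ] Z) : Prop :=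
  ∀ x ν, hZ.c (T x) ν = if ν.1 ∈ M then inner ℝ (x ν.1) (P.g ν.1 ν.2) else 0

/-- the coordinate of `U` with the same position -/
noncomputable def Params.tw (ν : Ix P.v) : Ix P.u := unpos P.u P.u_pos (pos P.v ν.1 ν.2)

/-- `I` is the formal inclusion. -/
def IsI (I : USp P.u p →L[ℝ] Z) : Prop :=
  ∀ x ν, hZ.c (I x) ν = x (P.tw ν).1 (P.tw ν).2

omit [Fact (1 ≤ p)] in
lemma Params.tw_injective {ν μ : Ix P.v} (h : P.tw ν = P.tw μ) : ν = μ :=
  pos_injective (unpos_injective P.u_pos h)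

omit [Fact (1 ≤ p)] in
lemma Params.u_lt (n : ℕ) : P.u n < P.u (n + 1) := (P.u_lt_v n).trans (P.v_lt_u n)

omit [Fact (1 ≤ p)] in
lemma Params.u_strictMono : StrictMono P.u := strictMono_nat_of_lt_succ P.u_lt

section Basic

include hZ

omit [Fact (1 ≤ p)] in
open Classical in
/-- coordinate projections -/
lemma exists_coordProj (s : Set (Ix P.v)) : ∃ S : Z →L[ℝ] Z, ‖S‖ ≤ 1 ∧
    ∀ z μ, hZ.c (S z) μ = if μ ∈ s then hZ.c z μ else 0 := by
  obtain ⟨S, hS, h⟩ := hZ.exists_shuffle (fun μ => if μ ∈ s then some μ else none) (by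
    intro ν
    refine (Set.finite_singleton ν).subset ?_
    intro μ hμ
    simp only [Set.mem_ofPred_eq] at hμ
    split_ifs at hμ with h
    exact Option.some.inj hμ)
  refine ⟨S, hS, fun z μ => ?_⟩
  rw [h]
  split_ifs with h' <;> simp

end Basic

variable {T : Set ℕ → (USp P.u p →L[ℝ] Z)} (hT : ∀ M, IsT P hZ M (T M))
  {I : USp P.u p →L[ℝ] Z} (hI : IsI P hZ I)

include hT in
lemma T_mono {M M' : Set ℕ} (h : M' ⊆ M) : T M' ∈ idealGen (T M) := by
  classical
  obtain ⟨S, _, hS⟩ := exists_coordProj P hZ {μ | μ.1 ∈ M'}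
  have h1 : T M' = S.comp (T M) := by
    ext x
    refine hZ.ext (funext fun μ => ?_)
    change _ = hZ.c (S (T M x)) μ
    rw [hS, hT M', hT M]
    by_cases h2 : μ.1 ∈ M'
    · rw [if_pos h2, if_pos (h h2), if_pos (show μ ∈ {μ : Ix P.v | μ.1 ∈ M'} from h2)]
    · rw [if_neg h2, if_neg (show ¬ μ ∈ {μ : Ix P.v | μ.1 ∈ M'} from h2)]
  rw [h1]
  exact (isClosedIdeal_idealGen _).left _ (mem_idealGen _)

include hI in
/-- operators with finitely many coordinates -/
lemma finite_mem (R : USp P.u p →L[ℝ] Z) {n₀ : ℕ}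
    (hR : ∀ x (ν : Ix P.v), n₀ ≤ ν.1 → hZ.c (R x) ν = 0) : R ∈ idealGen I := by
  classical
  have hfin : {ν : Ix P.v | ν.1 ∈ Set.Iio n₀}.Finite := finite_fst (Set.finite_Iio n₀)
  set s := hfin.toFinset with hs
  set o : Ix P.v := ⟨0, ⟨0, P.v_pos 0⟩⟩ with ho
  set e : USp P.u p := lp.single p 0 (EuclideanSpace.single ⟨0, P.u_pos 0⟩ (1 : ℝ)) with he
  have htw : P.tw o = ⟨0, ⟨0, P.u_pos 0⟩⟩ := by
    have h1 : pos P.v o.1 o.2 = pos P.u 0 ⟨0, P.u_pos 0⟩ := by
      change pos P.v 0 ⟨0, P.v_pos 0⟩ = pos P.u 0 ⟨0, P.u_pos 0⟩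
      simp [pos]
    unfold Params.tw
    rw [h1]
    exact unpos_pos P.u_pos ⟨0, ⟨0, P.u_pos 0⟩⟩
  have hIe : hZ.c (I e) o = 1 := by
    rw [hI, htw]
    change (lp.single p 0 (EuclideanSpace.single ⟨0, P.u_pos 0⟩ (1 : ℝ)) :
      USp P.u p) 0 ⟨0, P.u_pos 0⟩ = 1
    rw [lp.single_apply_self]
    simp
  choose f hf using fun ν => hZ.exists_coord R ν
  have hsh : ∀ ν : Ix P.v, ∃ S : Z →L[ℝ] Z, ∀ z μ, hZ.c (S z) μ =
      if μ = ν then hZ.c z o else 0 := by
    intro ν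
    obtain ⟨S, _, h⟩ := hZ.exists_shuffle (fun μ => if μ = ν then some o else none) (by
      intro κ
      refine (Set.finite_singleton ν).subset ?_
      intro μ hμ
      simp only [Set.mem_ofPred_eq] at hμ
      split_ifs at hμ with h
      exact h)
    refine ⟨S, fun z μ => ?_⟩
    rw [h]
    split_ifs with h' <;> simp
  choose S hS using hsh
  have hsum : R = ∑ ν ∈ s, ((S ν).comp I).comp ((f ν).smulRight e) := by
    ext x
    refine hZ.ext (funext fun μ => ?_)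
    rw [sum_apply, map_sum, Finset.sum_apply]
    have h1 : ∀ ν ∈ s, hZ.c ((((S ν).comp I).comp ((f ν).smulRight e)) x) μ =
        if μ = ν then hZ.c (R x) ν else 0 := by
      intro ν _
      change hZ.c (S ν (I (f ν x • e))) μ = _
      rw [hS, map_smul, map_smul]
      change (if μ = ν then f ν x * hZ.c (I e) o else 0) = _
      rw [hIe, hf, mul_one]
    rw [Finset.sum_congr rfl h1, Finset.sum_ite_eq]
    split_ifs with h2
    · rfl
    · refine hR x μ ?_
      by_contra h3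
      exact h2 (hfin.mem_toFinset.2 (not_le.1 h3))
  rw [hsum]
  refine Submodule.sum_mem _ fun ν _ => ?_
  exact (isClosedIdeal_idealGen _).comp _ _ _ (mem_idealGen _)

include hT hI in
lemma T_finite {M : Set ℕ} (hM : M.Finite) : T M ∈ idealGen I := by
  obtain ⟨n₀, hn₀⟩ := hM.bddAbove
  refine finite_mem P hZ hI (T M) (n₀ := n₀ + 1) fun x ν hν => ?_
  rw [hT M, if_neg]
  intro h
  have := hn₀ h
  omega

include hT hI in
lemma I_mem (hp : p ≠ ∞) {M : Set ℕ} (hM : M.Infinite) : I ∈ idealGen (T M) := by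
  classical
  have hmono : StrictMono P.u := P.u_strictMono
  set n : ℕ → ℕ := fun m => Nat.nth (· ∈ M) (P.u m + m) with hn
  have hnth : StrictMono (Nat.nth (· ∈ M)) := Nat.nth_strictMono hM
  have hge : ∀ k, k ≤ Nat.nth (· ∈ M) k := fun k => hnth.le_apply
  have hninj : Function.Injective n := by
    intro m m' h
    have h1 := hnth.injective h
    by_contra hne
    rcases Nat.lt_or_gt_of_ne hne with h2 | h2
    · have := hmono h2; omega
    · have := hmono h2; omega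
  have hnM : ∀ m, n m ∈ M := fun m => Nat.nth_mem_of_infinite hM _
  have hnu : ∀ m, P.u m ≤ n m := fun m => (Nat.le_add_right _ _).trans (hge _)
  have hnm : ∀ m, m ≤ n m := fun m => (Nat.le_add_left _ _).trans (hge _)
  have hd : ∀ m, P.u m ≤ P.v (n m) := fun m =>
    (hmono.monotone (hnm m)).trans (P.u_lt_v (n m)).le
  have hd' : ∀ m, ((P.u m : ℕ) : ℝ) ≤ 19 * ((n m : ℝ) + 1) ^ 2 := by
    intro m
    have h1 : ((P.u m : ℕ) : ℝ) ≤ (n m : ℝ) := by exact_mod_cast hnu m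
    nlinarith [(Nat.cast_nonneg (n m) : (0 : ℝ) ≤ (n m : ℝ))]
  have hL : ∀ m, ∃ L : E P.u m →L[ℝ] E P.u (n m), ‖L‖ ≤ 2 ∧
      ∀ z t, inner ℝ (L z) (P.g (n m) (Fin.castLE (hd m) t)) = z t := fun m =>
    exists_dual _ (P.lower_first (n m) (hd m) (hd' m))
  have hR : ∀ k, ∃ m, ∃ R : E P.u m →L[ℝ] E P.u k, ‖R‖ ≤ 2 ∧ (R ≠ 0 → n m = k) ∧
      ∀ m', n m' = k → ∀ (x : ∀ i, E P.u i) (t : Fin (P.u m')) (j : Fin (P.v k)),
        (j : ℕ) = t → inner ℝ (R (x m)) (P.g k j) = x m' t := by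
    intro k
    by_cases hk : ∃ m, n m = k
    · obtain ⟨m, rfl⟩ := hk
      obtain ⟨L, hL1, hL2⟩ := hL m
      refine ⟨m, L, hL1, fun _ => rfl, ?_⟩
      intro m' hm' x t j hj
      obtain rfl := hninj hm'
      have h1 : j = Fin.castLE (hd m') t := Fin.ext hj
      rw [h1]
      exact hL2 _ _
    · refine ⟨0, 0, by simp, fun h => absurd rfl h, ?_⟩
      intro m' hm'
      exact absurd ⟨m', hm'⟩ hk
  choose b R hR1 hR2 hR3 using hR
  obtain ⟨B, _, hB⟩ := exists_shift (E := E P.u) (F := E P.u) (p := p) hp b R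
    (by norm_num : (0 : ℝ) ≤ 2) hR1 (by
      intro k k' hkk hk hk'
      rw [← hR2 k hk, ← hR2 k' hk', hkk])
  obtain ⟨A, _, hA⟩ := hZ.exists_shuffle
    (fun μ => some ⟨n (P.tw μ).1, Fin.castLE (hd _) (P.tw μ).2⟩) (by
      intro ν
      refine Set.Subsingleton.finite ?_
      intro μ hμ μ' hμ'
      simp only [Set.mem_ofPred_eq] at hμ hμ'
      have h1 := Option.some.inj (hμ.trans hμ'.symm)
      refine P.tw_injective ?_
      have h2 : n (P.tw μ).1 = n (P.tw μ').1 := congrArg Sigma.fst h1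
      have h3 := hninj h2
      have h4 : ((P.tw μ).2 : ℕ) = (P.tw μ').2 := by
        have := congrArg (fun q : Ix P.v => (q.2 : ℕ)) h1
        simpa using this
      exact Sigma.ext h3 ((Fin.heq_ext_iff (by rw [h3])).2 h4))
  have hIeq : I = (A.comp (T M)).comp B := by
    ext x
    refine hZ.ext (funext fun μ => ?_)
    change _ = hZ.c (A (T M (B x))) μ
    rw [hA, Option.elim_some, hT M, if_pos (hnM _), hB, hI]
    exact (hR3 _ _ rfl x _ _ rfl).symm
  rw [hIeq]
  exact (isClosedIdeal_idealGen _).comp _ _ _ (mem_idealGen _)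

end Pool.Agent.Lib.MP_537232_an
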