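import Pool.Agent.Lib.MP_537232_an.Riesz

set_option autoImplicit false

/-!
# Block shifts on `ℓ_p`-sums and the universal property of `ℓ₁`-sums
-/

open scoped ENNReal Topology
open Filter

namespace Pool.Agent.Lib.MP_537232_an

lemma exists_shift {ι κ : Type} {E : ι → Type} {F : κ → Type}
    [∀ i, NormedAddCommGroup (E i)] [∀ i, NormedSpace ℝ (E i)]
    [∀ i, NormedAddCommGroup (F i)] [∀ i, NormedSpace ℝ (F i)]
    {p : ℝ≥0∞} [Fact (1 ≤ p)] (hp : p ≠ ∞)
    (b : κ → ι) (R : ∀ k, E (b k) →L[ℝ] F k) {C : ℝ} (hC : 0 ≤ C) (hR : ∀ k, ‖R k‖ ≤ C)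
    (hinj : ∀ k k', b k = b k' → R k ≠ 0 → R k' ≠ 0 → k = k') :
    ∃ S : lp E p →L[ℝ] lp F p, ‖S‖ ≤ C ∧ ∀ x k, (S x) k = R k (x (b k)) := by
  classical
  have hp1 : (1 : ℝ≥0∞) ≤ p := Fact.out
  have hp0 : 0 < p.toReal := ENNReal.toReal_pos (lt_of_lt_of_le zero_lt_one hp1).ne' hp
  have key : ∀ (x : lp E p) (s : Finset κ),
      ∑ k ∈ s, ‖R k (x (b k))‖ ^ p.toReal ≤ (C * ‖x‖) ^ p.toReal := by
    intro x s
    set s' := s.filter fun k => R k ≠ 0 with hs'
    have h1 : ∑ k ∈ s, ‖R k (x (b k))‖ ^ p.toReal = ∑ k ∈ s', ‖R k (x (b k))‖ ^ p.toReal := by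
      rw [hs', Finset.sum_filter]
      refine Finset.sum_congr rfl fun k _ => ?_
      split_ifs with h
      · rfl
      · rw [not_not] at h
        rw [h]
        simp [Real.zero_rpow hp0.ne']
    have h2 : ∀ k, ‖R k (x (b k))‖ ^ p.toReal ≤ C ^ p.toReal * ‖x (b k)‖ ^ p.toReal := by
      intro k
      rw [← Real.mul_rpow hC (norm_nonneg _)]
      refine Real.rpow_le_rpow (norm_nonneg _) ?_ hp0.le
      exact ((R k).le_opNorm _).trans (by gcongr; exact hR k)
    have h3 : ∑ k ∈ s', ‖x (b k)‖ ^ p.toReal ≤ ‖x‖ ^ p.toReal := by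
      have h4 : ∑ i ∈ s'.image b, ‖x i‖ ^ p.toReal = ∑ k ∈ s', ‖x (b k)‖ ^ p.toReal := by
        rw [Finset.sum_image]
        intro k hk k' hk' hkk
        have h5 := (Finset.mem_filter.1 hk).2
        have h6 := (Finset.mem_filter.1 hk').2
        exact hinj k k' hkk h5 h6
      rw [← h4]
      exact lp.sum_rpow_le_norm_rpow hp0 x _
    rw [h1, Real.mul_rpow hC (norm_nonneg _)]
    calc ∑ k ∈ s', ‖R k (x (b k))‖ ^ p.toReal
        ≤ ∑ k ∈ s', C ^ p.toReal * ‖x (b k)‖ ^ p.toReal := Finset.sum_le_sum fun k _ => h2 k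
      _ = C ^ p.toReal * ∑ k ∈ s', ‖x (b k)‖ ^ p.toReal := by rw [Finset.mul_sum]
      _ ≤ C ^ p.toReal * ‖x‖ ^ p.toReal := by
          gcongr
  have hmem : ∀ x : lp E p, Memℓp (fun k => R k (x (b k))) p := fun x => memℓp_gen' (key x)
  refine ⟨LinearMap.mkContinuous
    { toFun := fun x => (⟨fun k => R k (x (b k)), hmem x⟩ : lp F p)
      map_add' := fun x y => by
        refine lp.ext (funext fun k => ?_)
        exact (R k).map_add (x (b k)) (y (b k))
      map_smul' := fun c x => by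
        refine lp.ext (funext fun k => ?_)
        exact (R k).map_smul c (x (b k)) } C (fun x => ?_), LinearMap.mkContinuous_norm_le _ hC _, ?_⟩
  · exact lp.norm_le_of_forall_sum_le hp0 (by positivity) (key x)
  · intro x k
    rfl

/-- Universal property of the `ℓ₁`-sum. -/
lemma exists_lift {ι : Type} {E : ι → Type}
    [∀ i, NormedAddCommGroup (E i)] [∀ i, NormedSpace ℝ (E i)] [DecidableEq ι]
    {X : Type} [NormedAddCommGroup X] [NormedSpace ℝ X] [CompleteSpace X]
    (R : ∀ l, E l →L[ℝ] X) {C : ℝ} (hC : 0 ≤ C) (hR : ∀ l, ‖R l‖ ≤ C) :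
    ∃ S : lp E 1 →L[ℝ] X, ‖S‖ ≤ C ∧ ∀ l x, S (lp.single 1 l x) = R l x := by
  have h1 : (1 : ℝ≥0∞).toReal = 1 := by simp
  have hs : ∀ x : lp E 1, HasSum (fun l => ‖x l‖) ‖x‖ := by
    intro x
    have h := lp.hasSum_norm (p := 1) (by rw [h1]; exact one_pos) x
    simpa only [h1, Real.rpow_one] using h
  have hb : ∀ (x : lp E 1) l, ‖R l (x l)‖ ≤ C * ‖x l‖ := fun x l =>
    ((R l).le_opNorm _).trans (by gcongr; exact hR l)
  have hsum : ∀ x : lp E 1, Summable fun l => R l (x l) := fun x =>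
    Summable.of_norm_bounded ((hs x).summable.mul_left C) (hb x)
  refine ⟨LinearMap.mkContinuous
    { toFun := fun x => ∑' l, R l (x l)
      map_add' := fun x y => by
        rw [← (hsum x).tsum_add (hsum y)]
        refine tsum_congr fun l => ?_
        exact (R l).map_add (x l) (y l)
      map_smul' := fun c x => by
        simp only [RingHom.id_apply]
        rw [← (hsum x).tsum_const_smul]
        refine tsum_congr fun l => ?_
        exact (R l).map_smul c (x l) } C (fun x => ?_), LinearMap.mkContinuous_norm_le _ hC _, ?_⟩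
  · change ‖∑' l, R l (x l)‖ ≤ C * ‖x‖
    exact tsum_of_norm_bounded ((hs x).mul_left C) (hb x)
  · intro l x
    change ∑' m, R m (lp.single 1 l x m) = R l x
    rw [tsum_eq_single l]
    · rw [lp.single_apply_self]
    · intro m hm
      rw [lp.single_apply_ne _ _ _ hm, map_zero]

/-- Operators on an `ℓ₁`-sum are determined by the restrictions to the blocks. -/
lemma norm_le_of_single {ι : Type} {E : ι → Type}
    [∀ i, NormedAddCommGroup (E i)] [∀ i, NormedSpace ℝ (E i)] [DecidableEq ι]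
    {X : Type} [NormedAddCommGroup X] [NormedSpace ℝ X]
    (S : lp E 1 →L[ℝ] X) {C : ℝ} (hC : 0 ≤ C) (hS : ∀ l x, ‖S (lp.single 1 l x)‖ ≤ C * ‖x‖) :
    ‖S‖ ≤ C := by
  have h1 : (1 : ℝ≥0∞).toReal = 1 := by simp
  refine ContinuousLinearMap.opNorm_le_bound _ hC fun x => ?_
  have hs : HasSum (fun l => ‖x l‖) ‖x‖ := by
    have h := lp.hasSum_norm (p := 1) (by rw [h1]; exact one_pos) x
    simpa only [h1, Real.rpow_one] using h
  have h2 : HasSum (fun l => lp.single 1 l (x l)) x :=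
    lp.hasSum_single (p := 1) (by norm_num) x
  have h3 : HasSum (fun l => S (lp.single 1 l (x l))) (S x) := h2.mapL S
  rw [← h3.tsum_eq]
  exact tsum_of_norm_bounded (hs.mul_left C) fun l => hS l (x l)

lemma ext_of_single {ι : Type} {E : ι → Type}
    [∀ i, NormedAddCommGroup (E i)] [∀ i, NormedSpace ℝ (E i)] [DecidableEq ι]
    {X : Type} [NormedAddCommGroup X] [NormedSpace ℝ X]
    {S S' : lp E 1 →L[ℝ] X} (h : ∀ l x, S (lp.single 1 l x) = S' (lp.single 1 l x)) : S = S' := by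
  have h1 : ‖S - S'‖ ≤ 0 := norm_le_of_single _ le_rfl fun l x => by
    rw [sub_apply, h, sub_self, norm_zero, zero_mul]
  exact sub_eq_zero.1 (norm_le_zero_iff.1 h1)

end Pool.Agent.Lib.MP_537232_an
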